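import Mathlib
import Pool.Agent.DP2.EC

/-! Block count with the energy as a parameter. -/

set_option autoImplicit false

namespace Pool.Agent.DP3

open Finset Pool.Agent.DigitPowers Pool.Agent.DP2

/-- one residue-block estimate. -/
theorem block_count_E_one (p q : ℕ) (hp : 2 ≤ p) (hq : q.Prime) (hq3 : 3 ≤ q) (hpq : ¬ q ∣ p)
    (D : Finset ℕ) (l J j s E : ℕ)
    (hEn : ((((Ico 1 (q ^ j)) ×ˢ (Ico 1 (q ^ j))) ×ˢ
      (good D q (wexp p q + l) ×ˢ good D q (wexp p q + l))).filter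
      (fun t => t.1.1 * t.2.2 ≡ t.1.2 * t.2.1 [MOD q ^ (wexp p q + l)])).card ≤ E)
    (hJq : J ≤ q ^ (wexp p q + l)) (hJ : 6 * ((q ^ j - 1) * J) ≤ q ^ (wexp p q + l)) :
    (∑ i ∈ range (q ^ l), (((range J).filter (fun j : ℕ =>
      lowOK D q ((wexp p q + l) + (wexp p q + l))
        (p ^ ((q ^ l * s + i) + (q - 1) * q ^ l * j)))).card : ℝ)) ≤
      4 / (q : ℝ) ^ j * ((D.card : ℝ) ^ (wexp p q + l) * (D.card : ℝ) ^ (wexp p q + l)) +
      8 / (q : ℝ) ^ j * (Real.sqrt (E : ℝ) *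
        Real.sqrt ((q : ℝ) ^ (wexp p q + l) * (D.card : ℝ) ^ (wexp p q + l))) := by
  classical
  set r := wexp p q + l with hr
  have hqpos : 0 < q := hq.pos
  have : NeZero (q ^ r) := ⟨pow_ne_zero _ hq.ne_zero⟩
  obtain ⟨w, hw, hPw⟩ := exists_w p q hp hq hq3 hpq l
  rw [← hr] at hPw
  have hcop : ∀ a : ℕ, Nat.Coprime (w * p ^ a) (q ^ r) := by
    intro a
    apply Nat.Coprime.pow_right
    apply Nat.Coprime.mul_left
    · exact Nat.coprime_comm.mp ((Nat.Prime.coprime_iff_not_dvd hq).mpr hw)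
    · exact Nat.Coprime.pow_left _ (Nat.coprime_comm.mp ((Nat.Prime.coprime_iff_not_dvd hq).mpr hpq))
  set u : ℕ → (ZMod (q ^ r))ˣ := fun i => ZMod.unitOfCoprime (w * p ^ (q ^ l * s + i)) (hcop _) with hu
  set y : ℕ → ZMod (q ^ r) := fun i => ((p ^ (q ^ l * s + i) / q ^ r : ℕ) : ZMod (q ^ r)) with hy
  set S := digitRes D q r with hS
  set U := (range (q ^ l)).filter (fun i => lowOK D q r (p ^ (q ^ l * s + i))) with hU
  -- expansion of the power
  have hexp : ∀ i j : ℕ, ∃ k, p ^ ((q ^ l * s + i) + (q - 1) * q ^ l * j) =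
      p ^ (q ^ l * s + i) + q ^ r * (w * p ^ (q ^ l * s + i) * j + q ^ r * k) := by
    intro i j
    obtain ⟨k, hk⟩ := one_add_pow_expand (q ^ r * w) j
    refine ⟨p ^ (q ^ l * s + i) * w ^ 2 * k, ?_⟩
    rw [pow_add, pow_mul p ((q - 1) * q ^ l) j, hPw, hk]
    ring
  have hmodr : ∀ i j : ℕ, lowOK D q r (p ^ ((q ^ l * s + i) + (q - 1) * q ^ l * j)) ↔
      lowOK D q r (p ^ (q ^ l * s + i)) := by
    intro i j
    obtain ⟨k, hk⟩ := hexp i j
    rw [← lowOK_mod D q r _ hqpos, hk, Nat.add_mul_mod_self_left, lowOK_mod D q r _ hqpos]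
  have hdiv : ∀ i j : ℕ, ((p ^ ((q ^ l * s + i) + (q - 1) * q ^ l * j) / q ^ r : ℕ) : ZMod (q ^ r)) =
      y i + (u i : ZMod (q ^ r)) * (j : ZMod (q ^ r)) := by
    intro i j
    obtain ⟨k, hk⟩ := hexp i j
    rw [hk, Nat.add_mul_div_left _ _ (pow_pos hqpos r)]
    rw [hu, hy]
    simp only [ZMod.coe_unitOfCoprime]
    push_cast
    have : ((q : ZMod (q ^ r)) ^ r) = 0 := by
      have := ZMod.natCast_self (q ^ r)
      push_cast at this
      exact this
    rw [this]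
    ring
  have hU1 : ∀ a ∈ U, a < q ^ l ∧ lowOK D q r (p ^ (q ^ l * s + a)) := by
    intro a ha
    rw [hU, mem_filter, mem_range] at ha
    exact ha
  have hinj2 : ∀ a ∈ U, ∀ b ∈ U, ((p ^ (q ^ l * s + a) : ℕ) : ZMod (q ^ r)) =
      ((p ^ (q ^ l * s + b) : ℕ) : ZMod (q ^ r)) → a = b := by
    intro a ha b hb hab
    have ha' := (hU1 a ha).1
    have hb' := (hU1 b hb).1
    rcases lt_trichotomy a b with h | h | h
    · exact (pow_inj p q hp hq hq3 hpq l _ _ (by omega) (by omega) hab).elim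
    · exact h
    · exact (pow_inj p q hp hq hq3 hpq l _ _ (by omega) (by omega) hab.symm).elim
  have hSU : U.card ≤ D.card ^ r := by
    refine le_trans ?_ (card_digitRes D q r hqpos)
    refine card_le_card_of_injOn (fun i => ((p ^ (q ^ l * s + i) : ℕ) : ZMod (q ^ r))) ?_ ?_
    · intro i hi
      rw [mem_coe]
      exact (mem_digitRes_natCast D q r _ hqpos).mpr (hU1 i hi).2
    · intro a ha b hb hab
      exact hinj2 a ha b hb hab
  have hScard : S.card ≤ D.card ^ r := card_digitRes D q r hqpos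
  -- the energy
  set φ : ℕ → ℕ := fun a => p ^ (q ^ l * s + a) % q ^ r with hφ
  have hφgood : ∀ a ∈ U, φ a ∈ good D q r := by
    intro a ha
    unfold good
    rw [mem_filter, mem_range]
    refine ⟨Nat.mod_lt _ (pow_pos hqpos r), ?_, ?_⟩
    · rw [hφ]
      exact (lowOK_mod D q r _ hqpos).mpr (hU1 a ha).2
    · intro hdv
      have hr1 : 0 < r := by
        have := wexp_pos p q hp hq hq3 hpq
        omega
      have h1 : q ∣ q ^ r := dvd_pow_self q hr1.ne'
      have h2 : q ∣ p ^ (q ^ l * s + a) := (Nat.dvd_mod_iff h1).1 hdv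
      exact hpq (hq.dvd_of_dvd_pow h2)
  have hφinj : ∀ a ∈ U, ∀ b ∈ U, φ a = φ b → a = b := by
    intro a ha b hb hab
    apply hinj2 a ha b hb
    rw [ZMod.natCast_eq_natCast_iff]
    exact hab
  have hE : ((((Ico 1 (q ^ j)) ×ˢ U) ×ˢ ((Ico 1 (q ^ j)) ×ˢ U)).filter (fun t =>
      ((t.1.1 : ℕ) : ZMod (q ^ r)) * (u t.2.2 : ZMod (q ^ r)) =
        ((t.2.1 : ℕ) : ZMod (q ^ r)) * (u t.1.2 : ZMod (q ^ r)))).card ≤
      E := by
    refine le_trans ?_ hEn
    refine card_le_card_of_injOn (fun t => ((t.1.1, t.2.1), (φ t.1.2, φ t.2.2))) ?_ ?_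
    · rintro ⟨⟨h1, a⟩, ⟨h2, b⟩⟩ ht
      rw [mem_coe, mem_filter, mem_product, mem_product, mem_product] at ht
      obtain ⟨⟨⟨ha1, ha2⟩, ⟨hb1, hb2⟩⟩, heq⟩ := ht
      simp only at ha1 ha2 hb1 hb2 heq
      rw [mem_coe, mem_filter, mem_product, mem_product, mem_product]
      refine ⟨⟨⟨ha1, hb1⟩, ⟨hφgood a ha2, hφgood b hb2⟩⟩, ?_⟩
      simp only
      have h3 : ((h1 * (w * p ^ (q ^ l * s + b)) : ℕ) : ZMod (q ^ r)) =
          ((h2 * (w * p ^ (q ^ l * s + a)) : ℕ) : ZMod (q ^ r)) := by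
        rw [Nat.cast_mul, Nat.cast_mul]
        simpa [hu, ZMod.coe_unitOfCoprime] using heq
      rw [ZMod.natCast_eq_natCast_iff] at h3
      have h4 : w * (h1 * p ^ (q ^ l * s + b)) ≡ w * (h2 * p ^ (q ^ l * s + a)) [MOD q ^ r] := by
        have e1 : w * (h1 * p ^ (q ^ l * s + b)) = h1 * (w * p ^ (q ^ l * s + b)) := by ring
        have e2 : w * (h2 * p ^ (q ^ l * s + a)) = h2 * (w * p ^ (q ^ l * s + a)) := by ring
        rw [e1, e2]
        exact h3
      have h5 : h1 * p ^ (q ^ l * s + b) ≡ h2 * p ^ (q ^ l * s + a) [MOD q ^ r] := by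
        refine Nat.ModEq.cancel_left_of_coprime ?_ h4
        exact Nat.Coprime.pow_left _ ((Nat.Prime.coprime_iff_not_dvd hq).mpr hw)
      have h6 : φ b ≡ p ^ (q ^ l * s + b) [MOD q ^ r] := Nat.mod_modEq _ _
      have h7 : φ a ≡ p ^ (q ^ l * s + a) [MOD q ^ r] := Nat.mod_modEq _ _
      exact ((h6.mul_left h1).trans h5).trans (h7.mul_left h2).symm
    · rintro ⟨⟨h1, a⟩, ⟨h2, b⟩⟩ ht ⟨⟨h1', a'⟩, ⟨h2', b'⟩⟩ ht' heq
      rw [mem_coe, mem_filter, mem_product, mem_product, mem_product] at ht ht'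
      simp only [Prod.mk.injEq] at heq
      obtain ⟨⟨e1, e2⟩, e3, e4⟩ := heq
      have e5 := hφinj a ht.1.1.2 a' ht'.1.1.2 e3
      have e6 := hφinj b ht.1.2.2 b' ht'.1.2.2 e4
      subst e1 e2 e5 e6
      rfl
  -- reduce to `count_le_energy`
  have hmain := count_le_energy (q ^ r) S U u y (q ^ j) J (pow_pos hqpos j) hJq hJ E hE
  have hred : (∑ i ∈ range (q ^ l), (((range J).filter (fun j : ℕ =>
      lowOK D q (r + r) (p ^ ((q ^ l * s + i) + (q - 1) * q ^ l * j)))).card : ℝ)) ≤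
      ∑ i ∈ U, (((range J).filter (fun j : ℕ => y i + (u i : ZMod (q ^ r)) * (j : ZMod (q ^ r)) ∈ S)).card : ℝ) := by
    rw [hU, sum_filter]
    refine sum_le_sum fun i _ => ?_
    split_ifs with hlow
    · have : ((range J).filter (fun j : ℕ =>
          lowOK D q (r + r) (p ^ ((q ^ l * s + i) + (q - 1) * q ^ l * j)))) ⊆
          ((range J).filter (fun j : ℕ => y i + (u i : ZMod (q ^ r)) * (j : ZMod (q ^ r)) ∈ S)) := by
        intro j hj
        rw [mem_filter] at hj ⊢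
        refine ⟨hj.1, ?_⟩
        rw [← hdiv i j, hS, mem_digitRes_natCast D q r _ hqpos]
        exact ((lowOK_add D q r r _).mp hj.2).2
      exact_mod_cast card_le_card this
    · have : ((range J).filter (fun j : ℕ =>
          lowOK D q (r + r) (p ^ ((q ^ l * s + i) + (q - 1) * q ^ l * j)))) = ∅ := by
        rw [filter_eq_empty_iff]
        intro j _ hcon
        exact hlow ((hmodr i j).mp ((lowOK_add D q r r _).mp hcon).1)
      rw [this]; simp
  refine hred.trans (hmain.trans ?_)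
  have hU' : (U.card : ℝ) ≤ (D.card : ℝ) ^ r := by exact_mod_cast hSU
  have hS' : (S.card : ℝ) ≤ (D.card : ℝ) ^ r := by exact_mod_cast hScard
  have e1 : 4 / ((q ^ j : ℕ) : ℝ) * ((U.card : ℝ) * (S.card : ℝ)) ≤
      4 / (q : ℝ) ^ j * ((D.card : ℝ) ^ r * (D.card : ℝ) ^ r) := by
    rw [Nat.cast_pow]
    exact mul_le_mul_of_nonneg_left
      (mul_le_mul hU' hS' (Nat.cast_nonneg _) (pow_nonneg (Nat.cast_nonneg _) _))
      (div_nonneg (by norm_num) (pow_nonneg (Nat.cast_nonneg _) _))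
  have e2 : 8 / ((q ^ j : ℕ) : ℝ) *
      (Real.sqrt (E : ℝ) *
        Real.sqrt (((q ^ r : ℕ) : ℝ) * (S.card : ℝ))) ≤
      8 / (q : ℝ) ^ j * (Real.sqrt (E : ℝ) *
        Real.sqrt ((q : ℝ) ^ r * (D.card : ℝ) ^ r)) := by
    rw [Nat.cast_pow, Nat.cast_pow]
    refine mul_le_mul_of_nonneg_left ?_ (div_nonneg (by norm_num) (pow_nonneg (Nat.cast_nonneg _) _))
    refine mul_le_mul_of_nonneg_left (Real.sqrt_le_sqrt ?_) (Real.sqrt_nonneg _)
    exact mul_le_mul_of_nonneg_left hS' (pow_nonneg (Nat.cast_nonneg _) _)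
  exact add_le_add e1 e2

/-- the full count below `(q-1) q^l J`, from a bound `E` for the energy. -/
theorem block_count_E (p q : ℕ) (hp : 2 ≤ p) (hq : q.Prime) (hq3 : 3 ≤ q) (hpq : ¬ q ∣ p)
    (D : Finset ℕ) (l J j E : ℕ)
    (hE : ((((Ico 1 (q ^ j)) ×ˢ (Ico 1 (q ^ j))) ×ˢ
      (good D q (wexp p q + l) ×ˢ good D q (wexp p q + l))).filter
      (fun t => t.1.1 * t.2.2 ≡ t.1.2 * t.2.1 [MOD q ^ (wexp p q + l)])).card ≤ E)
    (hJq : J ≤ q ^ (wexp p q + l)) (hJ : 6 * ((q ^ j - 1) * J) ≤ q ^ (wexp p q + l)) :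
    (((range ((q - 1) * q ^ l * J)).filter (fun n =>
      lowOK D q ((wexp p q + l) + (wexp p q + l)) (p ^ n))).card : ℝ) ≤
      q * (4 / (q : ℝ) ^ j * ((D.card : ℝ) ^ (wexp p q + l) * (D.card : ℝ) ^ (wexp p q + l)) +
      8 / (q : ℝ) ^ j * (Real.sqrt E *
        Real.sqrt ((q : ℝ) ^ (wexp p q + l) * (D.card : ℝ) ^ (wexp p q + l)))) := by
  classical
  set r := wexp p q + l with hr
  set B := 4 / (q : ℝ) ^ j * ((D.card : ℝ) ^ r * (D.card : ℝ) ^ r) +
      8 / (q : ℝ) ^ j * (Real.sqrt E *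
        Real.sqrt ((q : ℝ) ^ r * (D.card : ℝ) ^ r)) with hB
  have hB0 : 0 ≤ B := by positivity
  set L := (q - 1) * q ^ l with hL
  have h1 : (((range (L * J)).filter (fun n => lowOK D q (r + r) (p ^ n))).card : ℝ) =
      ∑ a ∈ range L, ∑ j ∈ range J, (if lowOK D q (r + r) (p ^ (a + L * j)) then (1 : ℝ) else 0) := by
    rw [sum_comm]
    have := sum_range_mul_block (fun n => if lowOK D q (r + r) (p ^ n) then (1 : ℝ) else 0) J L
    rw [mul_comm J L] at this
    rw [card_filter]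
    push_cast
    rw [this]
    refine sum_congr rfl fun j _ => sum_congr rfl fun a _ => ?_
    rw [add_comm (L * j) a]
  have h2 : ∑ a ∈ range L, ∑ j ∈ range J, (if lowOK D q (r + r) (p ^ (a + L * j)) then (1 : ℝ) else 0) =
      ∑ s ∈ range (q - 1), ∑ i ∈ range (q ^ l), (((range J).filter (fun j : ℕ =>
        lowOK D q (r + r) (p ^ ((q ^ l * s + i) + (q - 1) * q ^ l * j)))).card : ℝ) := by
    rw [hL, sum_range_mul_block]
    refine sum_congr rfl fun s _ => sum_congr rfl fun i _ => ?_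
    rw [card_filter]
    push_cast
    rfl
  rw [h1, h2]
  calc _ ≤ ∑ s ∈ range (q - 1), B := by
        refine sum_le_sum fun s _ => ?_
        exact block_count_E_one p q hp hq hq3 hpq D l J j s E hE hJq hJ
    _ = (q - 1 : ℕ) * B := by rw [sum_const, card_range, nsmul_eq_mul]
    _ ≤ q * B := by
        refine mul_le_mul_of_nonneg_right ?_ hB0
        exact_mod_cast Nat.sub_le q 1

end Pool.Agent.DP3
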