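import Mathlib
import Pool.Agent.DP2.EA

/-! Tree growth: ternary expansions with digits `0`, `1` of `z` and of `z + 3 ^ m * s * z + c`. -/

set_option autoImplicit false

namespace Pool.Agent.DP3

open Finset Pool.Agent.DigitPowers

/-- the set of the completions of `x` -/
private def TS (k m s c t x : ℕ) : Finset ℕ :=
  (range (3 ^ k)).filter (fun z => z % 3 ^ t = x ∧ lowOK {0, 1} 3 k z ∧
      lowOK {0, 1} 3 k (z + 3 ^ m * s * z + c))

/-- the digit which decides whether the position `i` is free -/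
private def fd (m s c i x : ℕ) : ℕ := (3 ^ m * s * x + c + (3 ^ (i + 1) - 1) / 2) / 3 ^ i % 3

/-- the weight of the position `i` -/
private noncomputable def wt (k m s c i x : ℕ) : ℝ :=
  if i < k ∧ fd m s c i x = 1 then 5 / 3 else 1

private lemma wt_one_le (k m s c i x : ℕ) : 1 ≤ wt k m s c i x := by
  unfold wt; split_ifs <;> norm_num

private lemma wt_le (k m s c i x : ℕ) : wt k m s c i x ≤ 5 / 3 := by
  unfold wt; split_ifs <;> norm_num

/-- `(3^i - 1)/2` -/
private lemma half_pow (i : ℕ) : 2 * ((3 ^ i - 1) / 2) + 1 = 3 ^ i := by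
  have h1 : 3 ^ i % 2 = 1 := by
    rw [Nat.pow_mod]; simp
  generalize 3 ^ i = P at h1 ⊢
  omega

private lemma half_succ (i : ℕ) : (3 ^ (i + 1) - 1) / 2 = (3 ^ i - 1) / 2 + 3 ^ i := by
  have h1 := half_pow i
  have h2 := half_pow (i + 1)
  rw [pow_succ] at h2 ⊢
  generalize 3 ^ i = P at h1 h2 ⊢
  omega

/-- numbers with digits `0`, `1` are at most `(3^i - 1)/2` -/
private lemma le_half (i x : ℕ) (hx : lowOK {0, 1} 3 i x) : x % 3 ^ i ≤ (3 ^ i - 1) / 2 := by
  induction i with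
  | zero => simp [Nat.mod_one]
  | succ i ih =>
    have h1 : lowOK {0, 1} 3 i x := fun j hj => hx j (by omega)
    have h2 := hx i (by omega)
    have h3 := ih h1
    rw [half_succ, Nat.mod_pow_succ]
    have h4 : x / 3 ^ i % 3 ≤ 1 := by
      simp only [mem_insert, mem_singleton] at h2
      omega
    calc x % 3 ^ i + 3 ^ i * (x / 3 ^ i % 3) ≤ (3 ^ i - 1) / 2 + 3 ^ i * 1 := by gcongr
      _ = _ := by ring

/-- changing `x` modulo a multiple of `3 ^ t` does not change the digits below `t + m` -/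
private lemma fd_congr (m s c t i x y : ℕ) (hi : i < t + m) (hxy : y = x ∨ y = x + 3 ^ t) :
    fd m s c i y = fd m s c i x := by
  rcases hxy with rfl | rfl
  · rfl
  · unfold fd
    obtain ⟨n, hn⟩ : ∃ n, t + m = i + 1 + n := ⟨t + m - (i + 1), by omega⟩
    have h1 : 3 ^ m * s * (x + 3 ^ t) + c + (3 ^ (i + 1) - 1) / 2 =
        (3 ^ m * s * x + c + (3 ^ (i + 1) - 1) / 2) + 3 ^ i * (3 * (3 ^ n * s)) := by
      have h2 : 3 ^ m * 3 ^ t = 3 ^ i * 3 * 3 ^ n := by
        rw [← pow_add, ← pow_succ, ← pow_add]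
        congr 1; omega
      calc _ = (3 ^ m * s * x + c + (3 ^ (i + 1) - 1) / 2) + (3 ^ m * 3 ^ t) * s := by ring
        _ = _ := by rw [h2]; ring
    rw [h1, Nat.add_mul_div_left _ _ (by positivity), Nat.add_mul_mod_self_left]

/-- the digit `t + m` differs for the two children -/
private lemma fd_ne (m s c t x : ℕ) (hs : ¬ 3 ∣ s) :
    fd m s c (t + m) (x + 3 ^ t) ≠ fd m s c (t + m) x := by
  unfold fd
  have h1 : 3 ^ m * s * (x + 3 ^ t) + c + (3 ^ (t + m + 1) - 1) / 2 =
      (3 ^ m * s * x + c + (3 ^ (t + m + 1) - 1) / 2) + 3 ^ (t + m) * s := by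
    rw [pow_add 3 t m]; ring
  rw [h1, Nat.add_mul_div_left _ _ (by positivity)]
  omega

/-- the digit `t` of the image decides -/
private lemma fd_eq (m s c t x : ℕ) (hx : x < 3 ^ t) (hx1 : lowOK {0, 1} 3 t x)
    (hy : lowOK {0, 1} 3 t (x + 3 ^ m * s * x + c)) :
    fd m s c t x = ((x + 3 ^ m * s * x + c) / 3 ^ t + 1) % 3 := by
  unfold fd
  obtain ⟨Y, hY⟩ : ∃ Y, Y = x + 3 ^ m * s * x + c := ⟨_, rfl⟩
  rw [← hY] at hy ⊢
  have h1 := le_half t x hx1
  have h2 := le_half t Y hy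
  rw [Nat.mod_eq_of_lt hx] at h1
  have h3 := half_pow t
  have h4 := Nat.div_add_mod Y (3 ^ t)
  have hp : 0 < 3 ^ t := by positivity
  -- the bracket
  obtain ⟨b, hb⟩ : ∃ b, b + x = Y % 3 ^ t + (3 ^ t - 1) / 2 :=
    ⟨Y % 3 ^ t + (3 ^ t - 1) / 2 - x, by omega⟩
  have hb2 : b < 3 ^ t := by omega
  have h5 : 3 ^ m * s * x + c + (3 ^ (t + 1) - 1) / 2 = b + 3 ^ t * (Y / 3 ^ t + 1) := by
    rw [half_succ, mul_add, mul_one]
    omega
  rw [h5, Nat.add_mul_div_left _ _ hp, Nat.div_eq_of_lt hb2, zero_add]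

/-- the completions of a good `x` are the completions of its children -/
private lemma TS_sub (k m s c t x : ℕ) (hm : 1 ≤ m) (htk : t < k) (hx : x < 3 ^ t)
    (hne : (TS k m s c t x).Nonempty) :
    TS k m s c t x ⊆ TS k m s c (t + 1) x ∪ TS k m s c (t + 1) (x + 3 ^ t) ∧
    (fd m s c t x ≠ 1 → TS k m s c t x ⊆ TS k m s c (t + 1) x ∨
      TS k m s c t x ⊆ TS k m s c (t + 1) (x + 3 ^ t)) := by
  have hp : 0 < 3 ^ t := by positivity
  have hchild : ∀ z ∈ TS k m s c t x, z / 3 ^ t % 3 = 0 ∧ z ∈ TS k m s c (t + 1) x ∨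
      z / 3 ^ t % 3 = 1 ∧ z ∈ TS k m s c (t + 1) (x + 3 ^ t) := by
    intro z hz
    rw [TS, mem_filter] at hz
    obtain ⟨h1, h2, h3, h4⟩ := hz
    have h5 := h3 t htk
    simp only [mem_insert, mem_singleton] at h5
    rcases h5 with h5 | h5
    · left
      refine ⟨h5, ?_⟩
      rw [TS, mem_filter]
      refine ⟨h1, ?_, h3, h4⟩
      rw [Nat.mod_pow_succ, h5, h2]; ring
    · right
      refine ⟨h5, ?_⟩
      rw [TS, mem_filter]
      refine ⟨h1, ?_, h3, h4⟩
      rw [Nat.mod_pow_succ, h5, h2]; ring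
  refine ⟨fun z hz => ?_, fun hfd => ?_⟩
  · rw [mem_union]
    rcases hchild z hz with h | h
    · exact Or.inl h.2
    · exact Or.inr h.2
  · -- the digit of the image
    have hdig : ∀ z ∈ TS k m s c t x, ((x + 3 ^ m * s * x + c) / 3 ^ t + z / 3 ^ t % 3) % 3 ≤ 1 := by
      intro z hz
      rw [TS, mem_filter] at hz
      obtain ⟨h1, h2, h3, h4⟩ := hz
      have h5 := h4 t htk
      simp only [mem_insert, mem_singleton] at h5
      obtain ⟨w, hw⟩ : ∃ w, w = z / 3 ^ t := ⟨_, rfl⟩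
      have h6 : z = x + 3 ^ t * w := by
        have := Nat.mod_add_div z (3 ^ t)
        rw [h2, ← hw] at this
        exact this.symm
      obtain ⟨n, hn⟩ : ∃ n, m = n + 1 := ⟨m - 1, by omega⟩
      have h7 : z + 3 ^ m * s * z + c = (x + 3 ^ m * s * x + c) + 3 ^ t * (w + 3 * (3 ^ n * s * w)) := by
        rw [h6, hn, pow_succ]; ring
      rw [h7, Nat.add_mul_div_left _ _ hp] at h5
      rw [← hw]
      omega
    obtain ⟨z₀, hz₀⟩ := hne
    have hgood : lowOK {0, 1} 3 t x ∧ lowOK {0, 1} 3 t (x + 3 ^ m * s * x + c) := by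
      rw [TS, mem_filter] at hz₀
      obtain ⟨h1, h2, h3, h4⟩ := hz₀
      have h5 : lowOK {0, 1} 3 t z₀ := fun j hj => h3 j (by omega)
      have h6 : lowOK {0, 1} 3 t (z₀ + 3 ^ m * s * z₀ + c) := fun j hj => h4 j (by omega)
      refine ⟨?_, ?_⟩
      · rw [← h2]
        exact (lowOK_mod {0, 1} 3 t z₀ (by norm_num)).2 h5
      · rw [← lowOK_mod {0, 1} 3 t _ (by norm_num)] at h6 ⊢
        have h7 : (z₀ + 3 ^ m * s * z₀ + c) % 3 ^ t = (x + 3 ^ m * s * x + c) % 3 ^ t := by
          have h8 : x ≡ z₀ [MOD 3 ^ t] := by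
            rw [← h2]; exact Nat.mod_modEq _ _
          exact ((h8.symm.add ((h8.symm).mul_left _)).add_right c)
        rw [← h7]; exact h6
    have hfe := fd_eq m s c t x hx hgood.1 hgood.2
    obtain ⟨e, he⟩ : ∃ e, e = (x + 3 ^ m * s * x + c) / 3 ^ t := ⟨_, rfl⟩
    rw [← he] at hfe hdig
    have he0 : e % 3 ≠ 0 := by omega
    by_cases he1 : e % 3 = 1
    · left
      intro z hz
      have h1 := hdig z hz
      rcases hchild z hz with h | h
      · exact h.2
      · omega
    · right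
      intro z hz
      have h1 := hdig z hz
      rcases hchild z hz with h | h
      · omega
      · exact h.2

private lemma main (k m s c : ℕ) (hm : 1 ≤ m) (hs : ¬ 3 ∣ s) (n : ℕ) :
    ∀ t, t + n = k → ∀ x, x < 3 ^ t →
    ((TS k m s c t x).card : ℝ) ≤ (5 / 3 : ℝ) ^ n * ∏ i ∈ Ico t (t + m), wt k m s c i x := by
  induction n with
  | zero =>
    intro t ht x hx
    have h1 : (TS k m s c t x).card ≤ 1 := by
      rw [card_le_one]
      intro a ha b hb
      rw [TS, mem_filter, mem_range] at ha hb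
      have htk : t = k := by omega
      rw [htk, Nat.mod_eq_of_lt ha.1] at ha
      rw [htk, Nat.mod_eq_of_lt hb.1] at hb
      rw [ha.2.1, hb.2.1]
    have h2 : (1 : ℝ) ≤ ∏ i ∈ Ico t (t + m), wt k m s c i x := by
      have h5 := Finset.prod_le_prod (s := Ico t (t + m)) (f := fun _ => (1 : ℝ))
        (g := fun i => wt k m s c i x) (fun _ _ => zero_le_one)
        (fun i _ => wt_one_le k m s c i x)
      simpa using h5
    have h3 : ((TS k m s c t x).card : ℝ) ≤ 1 := by exact_mod_cast h1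
    rw [pow_zero, one_mul]
    exact h3.trans h2
  | succ n ih =>
    intro t ht x hx
    have htk : t < k := by omega
    by_cases hne : (TS k m s c t x).Nonempty
    swap
    · rw [not_nonempty_iff_eq_empty] at hne
      rw [hne, card_empty, Nat.cast_zero]
      have h2 : (0 : ℝ) ≤ ∏ i ∈ Ico t (t + m), wt k m s c i x :=
        Finset.prod_nonneg fun i _ => zero_le_one.trans (wt_one_le k m s c i x)
      positivity
    obtain ⟨hsub, hforced⟩ := TS_sub k m s c t x hm htk hx hne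
    obtain ⟨P, hP⟩ : ∃ P : ℝ, P = ∏ i ∈ Ico (t + 1) (t + m), wt k m s c i x := ⟨_, rfl⟩
    have hP0 : 0 ≤ P := by
      rw [hP]
      exact Finset.prod_nonneg fun i _ => zero_le_one.trans (wt_one_le k m s c i x)
    have hprod : ∏ i ∈ Ico t (t + m), wt k m s c i x = wt k m s c t x * P := by
      rw [hP, Finset.prod_eq_prod_Ico_succ_bot (by omega)]
    have hpw : ∀ y, (y = x ∨ y = x + 3 ^ t) →
        ∏ i ∈ Ico (t + 1) (t + 1 + m), wt k m s c i y = P * wt k m s c (t + m) y := by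
      intro y hy
      rw [show t + 1 + m = (t + m) + 1 by omega, Finset.prod_Ico_succ_top (by omega), hP]
      congr 1
      refine Finset.prod_congr rfl fun i hi => ?_
      rw [mem_Ico] at hi
      unfold wt
      rw [fd_congr m s c t i x y hi.2 hy]
    have hx0 : x < 3 ^ (t + 1) := by rw [pow_succ]; omega
    have hx1 : x + 3 ^ t < 3 ^ (t + 1) := by rw [pow_succ]; omega
    have ih0 := ih (t + 1) (by omega) x hx0
    have ih1 := ih (t + 1) (by omega) (x + 3 ^ t) hx1
    rw [hpw x (Or.inl rfl)] at ih0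
    rw [hpw (x + 3 ^ t) (Or.inr rfl)] at ih1
    have hw0 := wt_le k m s c (t + m) x
    have hw1 := wt_le k m s c (t + m) (x + 3 ^ t)
    have hQ : (0 : ℝ) ≤ (5 / 3 : ℝ) ^ n := by positivity
    rw [hprod]
    by_cases hfd : fd m s c t x = 1
    · -- free
      have hwt : wt k m s c t x = 5 / 3 := by
        unfold wt; rw [if_pos ⟨htk, hfd⟩]
      have hsum : wt k m s c (t + m) x + wt k m s c (t + m) (x + 3 ^ t) ≤ 5 / 3 + 1 := by
        have hne' := fd_ne m s c t x hs
        unfold wt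
        split_ifs with h1 h2 h2
        · exact absurd (h2.2.trans h1.2.symm) hne'
        · exact le_refl _
        · linarith
        · norm_num
      have h1 : ((TS k m s c t x).card : ℝ) ≤
          (TS k m s c (t + 1) x).card + (TS k m s c (t + 1) (x + 3 ^ t)).card := by
        exact_mod_cast (card_le_card hsub).trans (card_union_le _ _)
      have h2 : (5 / 3 : ℝ) ^ n * (P * wt k m s c (t + m) x) +
          (5 / 3 : ℝ) ^ n * (P * wt k m s c (t + m) (x + 3 ^ t)) ≤
          (5 / 3 : ℝ) ^ n * P * (5 / 3 + 1) := by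
        rw [← mul_assoc, ← mul_assoc, ← mul_add]
        exact mul_le_mul_of_nonneg_left hsum (mul_nonneg hQ hP0)
      have h3 : (5 / 3 : ℝ) ^ n * P * (5 / 3 + 1) ≤ (5 / 3 : ℝ) ^ (n + 1) * (5 / 3 * P) := by
        rw [pow_succ]
        have h4 : 0 ≤ (5 / 3 : ℝ) ^ n * P := mul_nonneg hQ hP0
        nlinarith
      rw [hwt]
      linarith
    · -- forced
      have hwt1 := wt_one_le k m s c t x
      have h3 : (5 / 3 : ℝ) ^ n * (P * (5 / 3)) ≤ (5 / 3 : ℝ) ^ (n + 1) * (wt k m s c t x * P) := by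
        rw [pow_succ]
        have h4 : 0 ≤ (5 / 3 : ℝ) ^ n * P := mul_nonneg hQ hP0
        nlinarith [mul_le_mul_of_nonneg_left hwt1 h4]
      rcases hforced hfd with h | h
      · have h1 : ((TS k m s c t x).card : ℝ) ≤ (TS k m s c (t + 1) x).card := by
          exact_mod_cast card_le_card h
        have h2 : (5 / 3 : ℝ) ^ n * (P * wt k m s c (t + m) x) ≤ (5 / 3 : ℝ) ^ n * (P * (5 / 3)) := by
          gcongr
        linarith
      · have h1 : ((TS k m s c t x).card : ℝ) ≤ (TS k m s c (t + 1) (x + 3 ^ t)).card := by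
          exact_mod_cast card_le_card h
        have h2 : (5 / 3 : ℝ) ^ n * (P * wt k m s c (t + m) (x + 3 ^ t)) ≤
            (5 / 3 : ℝ) ^ n * (P * (5 / 3)) := by
          gcongr
        linarith

/-- PROOF. `R = 1 + 3^m s`. For `x < 3^i`, good up to `i`, let `e` be the digit `i` of `R x + c`; the children
`x + 3^i * c'` (`c'` in `{0,1}`) are good iff `(e + c') % 3` is in `{0,1}`: two if `e = 0`, one otherwise.
`e = 0` iff the digit `i` of `3^m s x + c + (3^(i+1)-1)/2` is `1` (as `|y - x| ≤ (3^i - 1)/2`): `free i x`, which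
depends only on `x` modulo `3^(i+1-m)`, and `free (t+m)` fails for at least one of the two children at `t`.
Claim by downward induction on `t`: the count is at most `(5/3)^(k-t) * ∏_{i in [t,t+m), i<k} (5/3 if free i ξ else 1)`
(`5/3 + 1 ≤ (5/3)^2`). -/
theorem tree_le (k m s c : ℕ) (hm : 1 ≤ m) (hs : ¬ 3 ∣ s) (t : ℕ) (ht : t ≤ k) (ξ : ℕ) :
    (((range (3 ^ k)).filter (fun z => z % 3 ^ t = ξ ∧ lowOK {0, 1} 3 k z ∧
      lowOK {0, 1} 3 k (z + 3 ^ m * s * z + c))).card : ℝ) ≤ (5 / 3 : ℝ) ^ (k - t + m) := by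
  have hdef : (range (3 ^ k)).filter (fun z => z % 3 ^ t = ξ ∧ lowOK {0, 1} 3 k z ∧
      lowOK {0, 1} 3 k (z + 3 ^ m * s * z + c)) = TS k m s c t ξ := rfl
  rw [hdef]
  by_cases hξ : ξ < 3 ^ t
  · refine (main k m s c hm hs (k - t) t (by omega) ξ hξ).trans ?_
    rw [pow_add]
    refine mul_le_mul_of_nonneg_left ?_ (by positivity)
    calc ∏ i ∈ Ico t (t + m), wt k m s c i ξ ≤ ∏ i ∈ Ico t (t + m), (5 / 3 : ℝ) :=
          Finset.prod_le_prod (fun i _ => zero_le_one.trans (wt_one_le k m s c i ξ))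
            fun i _ => wt_le k m s c i ξ
      _ = (5 / 3 : ℝ) ^ m := by
          rw [Finset.prod_const, Nat.card_Ico]
          congr 1; omega
  · have h1 : TS k m s c t ξ = ∅ := by
      rw [TS, filter_eq_empty_iff]
      rintro z _ ⟨h, _⟩
      exact hξ (h ▸ Nat.mod_lt _ (by positivity))
    rw [h1, card_empty, Nat.cast_zero]
    positivity

end Pool.Agent.DP3
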