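import Mathlib
import Pool.Agent.DP3.TA

/-! Tree growth for all sets of two ternary digits. -/

set_option autoImplicit false

namespace Pool.Agent.DP3

open Finset Pool.Agent.DigitPowers

theorem tp_digit_cons (D : Finset ℕ) (k e w : ℕ) (he : e < 3) (heD : e ∈ D) (hw : lowOK D 3 k w) :
    lowOK D 3 (k + 1) (e + 3 * w) := by
  rw [add_comm k 1, lowOK_add]
  refine ⟨fun i hi => ?_, ?_⟩
  · have : i = 0 := by omega
    subst this
    have : (e + 3 * w) / 3 ^ 0 % 3 = e := by rw [pow_zero, Nat.div_one]; omega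
    rw [this]; exact heD
  · have : (e + 3 * w) / 3 ^ 1 = w := by rw [pow_one]; omega
    rw [this]; exact hw

theorem tp_digit_uncons (D : Finset ℕ) (k z : ℕ) (h : lowOK D 3 (k + 1) z) :
    z % 3 ∈ D ∧ lowOK D 3 k (z / 3) := by
  rw [add_comm k 1, lowOK_add] at h
  refine ⟨?_, ?_⟩
  · have := h.1 0 (by norm_num)
    simpa using this
  · simpa using h.2

theorem tp_halve (k : ℕ) : ∀ z < 3 ^ k, lowOK {0, 2} 3 k z →
    ∃ w, w < 3 ^ k ∧ z = 2 * w ∧ lowOK {0, 1} 3 k w := by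
  induction k with
  | zero =>
    intro z hz _
    refine ⟨0, by norm_num, ?_, ?_⟩
    · rw [pow_zero] at hz; omega
    · intro i hi; omega
  | succ k ih =>
    intro z hz h
    obtain ⟨h0, h1⟩ := tp_digit_uncons _ _ _ h
    rw [pow_succ] at hz
    obtain ⟨w, hw1, hw2, hw3⟩ := ih (z / 3) (by omega) h1
    rw [mem_insert, mem_singleton] at h0
    refine ⟨z % 3 / 2 + 3 * w, ?_, ?_, ?_⟩
    · rw [pow_succ]; omega
    · rcases h0 with h0 | h0 <;> omega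
    · refine tp_digit_cons _ _ _ _ (by omega) ?_ hw3
      rw [mem_insert, mem_singleton]
      rcases h0 with h0 | h0 <;> omega

theorem tp_rho (k : ℕ) : (3 ^ (k + 1) - 1) / 2 = 1 + 3 * ((3 ^ k - 1) / 2) := by
  have h1 : (3 : ℕ) ^ k % 2 = 1 := by
    rw [Nat.pow_mod]; simp
  have h2 : 0 < (3 : ℕ) ^ k := by positivity
  rw [pow_succ]
  omega

theorem tp_shift (k : ℕ) : ∀ z < 3 ^ k, lowOK {1, 2} 3 k z →
    ∃ w, w < 3 ^ k ∧ z = w + (3 ^ k - 1) / 2 ∧ lowOK {0, 1} 3 k w := by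
  induction k with
  | zero =>
    intro z hz _
    refine ⟨0, by norm_num, ?_, ?_⟩
    · rw [pow_zero] at hz; simp; omega
    · intro i hi; omega
  | succ k ih =>
    intro z hz h
    obtain ⟨h0, h1⟩ := tp_digit_uncons _ _ _ h
    rw [pow_succ] at hz
    obtain ⟨w, hw1, hw2, hw3⟩ := ih (z / 3) (by omega) h1
    rw [mem_insert, mem_singleton] at h0
    refine ⟨(z % 3 - 1) + 3 * w, ?_, ?_, ?_⟩
    · rw [pow_succ]; omega
    · rw [tp_rho]
      rcases h0 with h0 | h0 <;> omega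
    · refine tp_digit_cons _ _ _ _ (by omega) ?_ hw3
      rw [mem_insert, mem_singleton]
      rcases h0 with h0 | h0 <;> omega

theorem tp_cases (D : Finset ℕ) (hD : D ⊆ range 3) (hc : D.card = 2) :
    D = {0, 1} ∨ D = {0, 2} ∨ D = {1, 2} := by
  have key : ∀ E ∈ (range 3).powerset, E.card = 2 → E = {0, 1} ∨ E = {0, 2} ∨ E = {1, 2} := by
    decide
  exact key D (mem_powerset.mpr hD) hc

/-- PROOF. `D = {0,1}`: `tree_le` with `c = 0`. `D = {0,2}`: `z = 2 z₁`, `y = 2 y₁`, `y₁ ≡ z₁ + 3^m s z₁` modulo `3^k`,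
`z₁ % 3^t` is determined by `ξ`. `D = {1,2}`: `ρ = (3^k-1)/2`, `z = z₁ + ρ`, `y = y₁ + ρ` (`y = (z + 3^m s z) % 3^k`),
`y₁ ≡ z₁ + 3^m s z₁ + 3^m s ρ`. -/
theorem tree_plus (D : Finset ℕ) (hD : D ⊆ range 3) (hc : D.card = 2) (k m s : ℕ) (hm : 1 ≤ m)
    (hs : ¬ 3 ∣ s) (t : ℕ) (ht : t ≤ k) (ξ : ℕ) :
    (((range (3 ^ k)).filter (fun z => z % 3 ^ t = ξ ∧ lowOK D 3 k z ∧
      lowOK D 3 k (z + 3 ^ m * s * z))).card : ℝ) ≤ (5 / 3 : ℝ) ^ (k - t + m) := by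
  have hk : 0 < (3 : ℕ) ^ k := by positivity
  have ht0 : 0 < (3 : ℕ) ^ t := by positivity
  rcases tp_cases D hD hc with rfl | rfl | rfl
  · exact tree_le k m s 0 hm hs t ht ξ
  · refine le_trans ?_ (tree_le k m s 0 hm hs t ht (((3 ^ t + 1) / 2 * ξ) % 3 ^ t))
    rw [Nat.cast_le]
    refine (card_le_card (t := ((range (3 ^ k)).filter (fun z =>
      z % 3 ^ t = ((3 ^ t + 1) / 2 * ξ) % 3 ^ t ∧ lowOK {0, 1} 3 k z ∧
      lowOK {0, 1} 3 k (z + 3 ^ m * s * z + 0))).image (fun w => 2 * w)) ?_).trans card_image_le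
    intro z hz
    rw [mem_filter, mem_range] at hz
    obtain ⟨hz0, hz1, hz2, hz3⟩ := hz
    obtain ⟨w, hw1, hw2, hw3⟩ := tp_halve k z hz0 hz2
    rw [← lowOK_mod _ _ _ _ (by norm_num)] at hz3
    obtain ⟨y, hy1, hy2, hy3⟩ := tp_halve k _ (Nat.mod_lt _ hk) hz3
    rw [mem_image]
    refine ⟨w, ?_, hw2.symm⟩
    rw [mem_filter, mem_range]
    refine ⟨hw1, ?_, hw3, ?_⟩
    · have hodd : (3 : ℕ) ^ t % 2 = 1 := by rw [Nat.pow_mod]; simp
      have h2 : (3 ^ t + 1) / 2 * (2 * w) = w + 3 ^ t * w := by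
        have : (3 ^ t + 1) / 2 * 2 = 3 ^ t + 1 := by omega
        rw [← mul_assoc, this]; ring
      rw [← hz1, hw2, Nat.mul_mod_mod, h2, Nat.add_mul_mod_self_left]
    · have hmod : y ≡ w + 3 ^ m * s * w + 0 [MOD 3 ^ k] := by
        have h2 : 2 * y ≡ 2 * (w + 3 ^ m * s * w + 0) [MOD 3 ^ k] := by
          have e : 2 * (w + 3 ^ m * s * w + 0) = z + 3 ^ m * s * z := by rw [hw2]; ring
          rw [e, ← hy2]
          exact Nat.mod_modEq _ _
        exact Nat.ModEq.cancel_left_of_coprime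
          (by rw [Nat.gcd_comm]; exact Nat.Coprime.pow_right k (by norm_num)) h2
      rw [← lowOK_mod _ _ _ _ (by norm_num), ← hmod, lowOK_mod _ _ _ _ (by norm_num)]
      exact hy3
  · refine le_trans ?_ (tree_le k m s (3 ^ m * s * ((3 ^ k - 1) / 2)) hm hs t ht
      ((ξ + (3 ^ t - 1) * ((3 ^ k - 1) / 2)) % 3 ^ t))
    rw [Nat.cast_le]
    refine (card_le_card (t := ((range (3 ^ k)).filter (fun z =>
      z % 3 ^ t = (ξ + (3 ^ t - 1) * ((3 ^ k - 1) / 2)) % 3 ^ t ∧ lowOK {0, 1} 3 k z ∧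
      lowOK {0, 1} 3 k (z + 3 ^ m * s * z + 3 ^ m * s * ((3 ^ k - 1) / 2)))).image
        (fun w => w + (3 ^ k - 1) / 2)) ?_).trans card_image_le
    intro z hz
    rw [mem_filter, mem_range] at hz
    obtain ⟨hz0, hz1, hz2, hz3⟩ := hz
    obtain ⟨w, hw1, hw2, hw3⟩ := tp_shift k z hz0 hz2
    rw [← lowOK_mod _ _ _ _ (by norm_num)] at hz3
    obtain ⟨y, hy1, hy2, hy3⟩ := tp_shift k _ (Nat.mod_lt _ hk) hz3
    rw [mem_image]
    refine ⟨w, ?_, hw2.symm⟩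
    rw [mem_filter, mem_range]
    generalize (3 ^ k - 1) / 2 = ρ at *
    refine ⟨hw1, ?_, hw3, ?_⟩
    · have h2 : w + ρ + (3 ^ t - 1) * ρ = w + 3 ^ t * ρ := by
        have : 3 ^ t * ρ = ρ + (3 ^ t - 1) * ρ := by
          obtain ⟨n, hn⟩ : ∃ n, 3 ^ t = n + 1 := ⟨3 ^ t - 1, by omega⟩
          rw [hn, Nat.add_sub_cancel]; ring
        rw [this]; ring
      rw [← hz1, hw2, Nat.mod_add_mod, h2, Nat.add_mul_mod_self_left]
    · have hmod : y ≡ w + 3 ^ m * s * w + 3 ^ m * s * ρ [MOD 3 ^ k] := by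
        have h2 : y + ρ ≡ (w + 3 ^ m * s * w + 3 ^ m * s * ρ) + ρ [MOD 3 ^ k] := by
          have e : (w + 3 ^ m * s * w + 3 ^ m * s * ρ) + ρ = z + 3 ^ m * s * z := by
            rw [hw2]; ring
          rw [e, ← hy2]
          exact Nat.mod_modEq _ _
        exact Nat.ModEq.add_right_cancel' _ h2
      rw [← lowOK_mod _ _ _ _ (by norm_num), ← hmod, lowOK_mod _ _ _ _ (by norm_num)]
      exact hy3

end Pool.Agent.DP3
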