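import Mathlib
import Pool.Agent.DP3.TA

/-! Tree growth for all sets of two ternary digits, the case of minus. -/

set_option autoImplicit false

namespace Pool.Agent.DP3

open Finset Pool.Agent.DigitPowers

private def tmRho : ℕ → ℕ
  | 0 => 0
  | k + 1 => 1 + 3 * tmRho k

private theorem tm_rho (k : ℕ) : 2 * tmRho k + 1 = 3 ^ k := by
  induction k with
  | zero => simp [tmRho]
  | succ k ih =>
    rw [pow_succ, ← ih]
    simp only [tmRho]
    ring

private theorem tm_succ (D : Finset ℕ) (k x : ℕ) :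
    lowOK D 3 (k + 1) x ↔ x % 3 ∈ D ∧ lowOK D 3 k (x / 3) := by
  rw [add_comm k 1, lowOK_add, pow_one]
  refine and_congr_left fun _ => ?_
  unfold lowOK
  constructor
  · intro h
    simpa using h 0 (by norm_num)
  · intro h i hi
    have : i = 0 := by omega
    subst this
    simpa using h

private theorem tm_shift (k : ℕ) : ∀ z z₁ : ℕ, z ≡ z₁ + tmRho k [MOD 3 ^ k] →
    lowOK {1, 2} 3 k z → lowOK {0, 1} 3 k z₁ := by
  induction k with
  | zero =>
    intro z z₁ _ _ i hi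
    omega
  | succ k ih =>
    intro z z₁ h hz
    rw [tm_succ] at hz ⊢
    have hr : tmRho (k + 1) = 1 + 3 * tmRho k := rfl
    rw [hr] at h
    have h3 : z ≡ z₁ + (1 + 3 * tmRho k) [MOD 3] :=
      h.of_dvd (dvd_pow_self 3 (Nat.succ_ne_zero k))
    have h4 : z % 3 = (z₁ + (1 + 3 * tmRho k)) % 3 := h3
    have hz0 : z % 3 = 1 ∨ z % 3 = 2 := by simpa using hz.1
    have h5 : z % 3 = z₁ % 3 + 1 := by omega
    have h6 : z₁ % 3 = 0 ∨ z₁ % 3 = 1 := by omega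
    refine ⟨by simpa using h6, ?_⟩
    refine ih (z / 3) (z₁ / 3) ?_ hz.2
    have h7 : 3 * (z / 3) + (z % 3) ≡ 3 * (z₁ / 3 + tmRho k) + z % 3 [MOD 3 * 3 ^ k] := by
      have e1 : 3 * (z / 3) + (z % 3) = z := Nat.div_add_mod z 3
      have e2 : 3 * (z₁ / 3 + tmRho k) + z % 3 = z₁ + (1 + 3 * tmRho k) := by
        rw [h5]
        have := Nat.div_add_mod z₁ 3
        omega
      rw [e1, e2, ← pow_succ']
      exact h
    exact Nat.ModEq.mul_left_cancel' (by norm_num) (Nat.ModEq.add_right_cancel' _ h7)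

private theorem tm_neg (k : ℕ) : ∀ y y' : ℕ, 3 ^ k ∣ y + y' + 1 →
    lowOK {1, 2} 3 k y → lowOK {0, 1} 3 k y' := by
  induction k with
  | zero =>
    intro y y' _ _ i hi
    omega
  | succ k ih =>
    intro y y' h hy
    rw [tm_succ] at hy ⊢
    have h3 : 3 ∣ y + y' + 1 := (dvd_pow_self 3 (Nat.succ_ne_zero k)).trans h
    have hy0 : y % 3 = 1 ∨ y % 3 = 2 := by simpa using hy.1
    have h5 : y % 3 + y' % 3 + 1 = 3 := by omega
    have h6 : y' % 3 = 0 ∨ y' % 3 = 1 := by omega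
    refine ⟨by simpa using h6, ?_⟩
    refine ih (y / 3) (y' / 3) ?_ hy.2
    have e1 : y + y' + 1 = 3 * (y / 3 + y' / 3 + 1) := by omega
    rw [e1, pow_succ'] at h
    exact Nat.dvd_of_mul_dvd_mul_left (by norm_num) h

/-- PROOF. `D = {0,1}`, `{0,2}`: the set is empty if `1 ≤ k` (lowest digits), and `k = 0` is clear. `D = {1,2}`:
`z = z₁ + ρ`, `y* = 3^k - 1 - y` (`y = (-(z + 3^m s z)) % 3^k`, digits of `y*` are `2 - ` those of `y`, in `{0,1}`),
`y* ≡ z + 3^m s z - 1 ≡ z₁ + 3^m s z₁ + (ρ + 3^m s ρ + 3^k - 1)`. -/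
theorem tree_minus (D : Finset ℕ) (hD : D ⊆ range 3) (hc : D.card = 2) (k m s : ℕ) (hm : 1 ≤ m)
    (hs : ¬ 3 ∣ s) (t : ℕ) (ht : t ≤ k) (ξ : ℕ) :
    (((range (3 ^ k)).filter (fun z => z % 3 ^ t = ξ ∧ ¬ 3 ∣ z ∧ lowOK D 3 k z ∧
      lowOK D 3 k (3 ^ k * (z + 3 ^ m * s * z) - (z + 3 ^ m * s * z)))).card : ℝ) ≤
      (5 / 3 : ℝ) ^ (k - t + m) := by
  have hnn : (0 : ℝ) ≤ (5 / 3 : ℝ) ^ (k - t + m) := by positivity
  have hpos : 0 < 3 ^ k := pow_pos (by norm_num) k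
  have hDD : D = {0, 1} ∨ D = {0, 2} ∨ D = {1, 2} := by
    have h1 : D ∈ (range 3).powersetCard 2 := mem_powersetCard.2 ⟨hD, hc⟩
    have h2 : (range 3).powersetCard 2 = {{0, 1}, {0, 2}, {1, 2}} := by decide
    rw [h2] at h1
    simpa using h1
  -- the number `y` modulo `3 ^ k`
  have hy : ∀ z : ℕ, 3 ^ k ∣ (3 ^ k * (z + 3 ^ m * s * z) - (z + 3 ^ m * s * z)) +
      (z + 3 ^ m * s * z) := by
    intro z
    rw [Nat.sub_add_cancel (Nat.le_mul_of_pos_left _ hpos)]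
    exact dvd_mul_right _ _
  have hempty : D = {0, 1} ∨ D = {0, 2} →
      ((range (3 ^ k)).filter (fun z => z % 3 ^ t = ξ ∧ ¬ 3 ∣ z ∧ lowOK D 3 k z ∧
      lowOK D 3 k (3 ^ k * (z + 3 ^ m * s * z) - (z + 3 ^ m * s * z)))) = ∅ := by
    intro hcase
    rw [filter_eq_empty_iff]
    rintro z hz ⟨-, h1, h2, h3⟩
    rw [mem_range] at hz
    rcases Nat.eq_zero_or_pos k with h0 | h0
    · subst h0
      rw [pow_zero] at hz
      have : z = 0 := by omega
      exact h1 (by rw [this]; exact dvd_zero 3)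
    · have e1 := h2 0 h0
      have e2 := h3 0 h0
      rw [pow_zero, Nat.div_one] at e1 e2
      have h4 : 3 ∣ (3 ^ k * (z + 3 ^ m * s * z) - (z + 3 ^ m * s * z)) +
        (z + 3 ^ m * s * z) := (dvd_pow_self 3 (by omega)).trans (hy z)
      obtain ⟨m', rfl⟩ : ∃ m', m = m' + 1 := ⟨m - 1, by omega⟩
      have h5 : 3 ∣ 3 ^ (m' + 1) * s * z := by
        rw [pow_succ']
        exact Dvd.dvd.mul_right (Dvd.dvd.mul_right (dvd_mul_right _ _) _) _
      generalize 3 ^ k * (z + 3 ^ (m' + 1) * s * z) - (z + 3 ^ (m' + 1) * s * z) = Y at *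
      generalize 3 ^ (m' + 1) * s * z = Z at *
      rcases hcase with rfl | rfl
      · simp only [mem_insert, mem_singleton] at e1 e2
        omega
      · simp only [mem_insert, mem_singleton] at e1 e2
        omega
  rcases hDD with h | h | h
  · rw [hempty (Or.inl h), card_empty, Nat.cast_zero]
    exact hnn
  · rw [hempty (Or.inr h), card_empty, Nat.cast_zero]
    exact hnn
  · subst h
    have hρ := tm_rho k
    obtain ⟨ρ, hρ'⟩ : ∃ ρ, ρ = tmRho k := ⟨_, rfl⟩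
    rw [← hρ'] at hρ
    refine le_trans ?_ (tree_le k m s (ρ + 3 ^ m * s * ρ + (3 ^ k - 1)) hm hs t ht
      ((ξ + (3 ^ k - ρ)) % 3 ^ t))
    have hz1 : ∀ z : ℕ, z ≡ (z + (3 ^ k - ρ)) % 3 ^ k + ρ [MOD 3 ^ k] := by
      intro z
      have e1 : (z + (3 ^ k - ρ)) % 3 ^ k + ρ ≡ (z + (3 ^ k - ρ)) + ρ [MOD 3 ^ k] :=
        Nat.ModEq.add_right _ (Nat.mod_modEq _ _)
      have e2 : (z + (3 ^ k - ρ)) + ρ = z + 3 ^ k := by omega
      rw [e2] at e1
      have e3 : z + 3 ^ k ≡ z [MOD 3 ^ k] := by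
        unfold Nat.ModEq
        rw [Nat.add_mod_right]
      exact (e1.trans e3).symm
    have hcard := card_le_card_of_injOn (s := (range (3 ^ k)).filter (fun z => z % 3 ^ t = ξ ∧
      ¬ 3 ∣ z ∧ lowOK {1, 2} 3 k z ∧
      lowOK {1, 2} 3 k (3 ^ k * (z + 3 ^ m * s * z) - (z + 3 ^ m * s * z))))
      (t := (range (3 ^ k)).filter (fun z => z % 3 ^ t = (ξ + (3 ^ k - ρ)) % 3 ^ t ∧
        lowOK {0, 1} 3 k z ∧
        lowOK {0, 1} 3 k (z + 3 ^ m * s * z + (ρ + 3 ^ m * s * ρ + (3 ^ k - 1)))))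
      (fun z => (z + (3 ^ k - ρ)) % 3 ^ k) ?_ ?_
    · exact_mod_cast hcard
    · intro z hz
      rw [mem_coe, mem_filter, mem_range] at hz
      obtain ⟨hz0, hz2, -, hz3, hz4⟩ := hz
      rw [mem_coe, mem_filter, mem_range]
      have h1 := hz1 z
      refine ⟨Nat.mod_lt _ hpos, ?_, ?_, ?_⟩
      · rw [Nat.mod_mod_of_dvd _ (pow_dvd_pow 3 ht), ← hz2, Nat.mod_add_mod]
      · rw [hρ'] at h1
        rw [hρ']
        exact tm_shift k z _ h1 hz3
      · refine tm_neg k _ _ ?_ hz4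
        obtain ⟨w, hw⟩ : ∃ w, w = (z + (3 ^ k - ρ)) % 3 ^ k := ⟨_, rfl⟩
        simp only [← hw] at h1 ⊢
        have h2 := hy z
        obtain ⟨Y, hY⟩ : ∃ Y, Y = 3 ^ k * (z + 3 ^ m * s * z) - (z + 3 ^ m * s * z) := ⟨_, rfl⟩
        rw [← hY] at h2 ⊢
        have h3 : Y + (w + 3 ^ m * s * w + (ρ + 3 ^ m * s * ρ + (3 ^ k - 1))) + 1 =
            (Y + ((w + ρ) + 3 ^ m * s * (w + ρ))) + 3 ^ k := by
          have : 3 ^ k - 1 + 1 = 3 ^ k := Nat.sub_add_cancel hpos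
          calc Y + (w + 3 ^ m * s * w + (ρ + 3 ^ m * s * ρ + (3 ^ k - 1))) + 1
              = (Y + ((w + ρ) + 3 ^ m * s * (w + ρ))) + (3 ^ k - 1 + 1) := by ring
            _ = _ := by rw [this]
        rw [h3]
        refine dvd_add ?_ (dvd_refl _)
        have h4 : Y + (z + 3 ^ m * s * z) ≡ Y + ((w + ρ) + 3 ^ m * s * (w + ρ)) [MOD 3 ^ k] :=
          Nat.ModEq.add_left _ (h1.add (h1.mul_left _))
        exact (Nat.modEq_zero_iff_dvd).1 (h4.symm.trans ((Nat.modEq_zero_iff_dvd).2 h2))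
    · intro z hz w hw hzw
      rw [mem_coe, mem_filter, mem_range] at hz hw
      simp only at hzw
      have h1 := hz1 z
      have h2 := hz1 w
      rw [hzw] at h1
      have h3 : z ≡ w [MOD 3 ^ k] := h1.trans h2.symm
      unfold Nat.ModEq at h3
      rwa [Nat.mod_eq_of_lt hz.1, Nat.mod_eq_of_lt hw.1] at h3

end Pool.Agent.DP3
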