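import Mathlib
import Pool.Agent.DP3.TP

/-! Pairs of residues with two ternary digits and a ratio of small height. -/

set_option autoImplicit false

namespace Pool.Agent.DP3

open Finset Pool.Agent.DigitPowers Pool.Agent.DP2

open scoped Classical in
/-- The pairs `(x, x')` with a ratio of small height. -/
noncomputable def PR (D : Finset ℕ) (k e i : ℕ) : Finset (ℕ × ℕ) :=
  (good D 3 k ×ˢ good D 3 k).filter (fun t => ∃ h h', 1 ≤ h' ∧ h' ≤ h ∧ h < 3 ^ i ∧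
      ¬ 3 ∣ h ∧ h * t.2 ≡ h' * t.1 [MOD 3 ^ (k - e)])

/-- two pairs over the same low digits have the same ratio. -/
private theorem tb_same {k e i h h' g g' a b x x' : ℕ} (hi : 2 * i + e ≤ k)
    (ha : ¬ 3 ∣ a) (hgd : ¬ 3 ∣ g) (h2 : h' ≤ h) (h3 : h < 3 ^ i) (g2 : g' ≤ g) (g3 : g < 3 ^ i)
    (hh : h * b ≡ h' * a [MOD 3 ^ (k - e)]) (hg : g * x' ≡ g' * x [MOD 3 ^ (k - e)])
    (hx : x ≡ a [MOD 3 ^ (2 * i)]) (hx' : x' ≡ b [MOD 3 ^ (2 * i)]) :
    h * x' ≡ h' * x [MOD 3 ^ (k - e)] := by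
  have hdvd : 3 ^ (2 * i) ∣ 3 ^ (k - e) := pow_dvd_pow 3 (by omega)
  have h2i : 3 ^ i * 3 ^ i = 3 ^ (2 * i) := by rw [← pow_add]; congr 1; omega
  have hprop : h * g' = g * h' := by
    refine prop_eq (Q := 3 ^ (2 * i)) (x := a) (x' := b) (y' := x') (cop_pow Nat.prime_three ha)
      (hh.of_dvd hdvd) ?_ hx'.symm ?_ ?_
    · exact (hg.of_dvd hdvd).trans (Nat.ModEq.mul_left g' hx)
    · rw [← h2i]; exact Nat.mul_lt_mul'' h3 (lt_of_le_of_lt g2 g3)
    · rw [← h2i]; exact Nat.mul_lt_mul'' g3 (lt_of_le_of_lt h2 h3)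
  have e1 : g * (h * x') ≡ g * (h' * x) [MOD 3 ^ (k - e)] := by
    calc g * (h * x') = h * (g * x') := by ring
      _ ≡ h * (g' * x) [MOD 3 ^ (k - e)] := Nat.ModEq.mul_left h hg
      _ = (h * g') * x := by ring
      _ = (g * h') * x := by rw [hprop]
      _ = g * (h' * x) := by ring
  exact Nat.ModEq.cancel_left_of_coprime (cop_pow Nat.prime_three hgd) e1

/-- the class `s` with `h s + g = 0` modulo `3 ^ K`. -/
private theorem tb_exists_s {K h g : ℕ} (hK : 1 ≤ K) (hh : ¬ 3 ∣ h) (hg : ¬ 3 ∣ g) :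
    ∃ s, ¬ 3 ∣ s ∧ h * s + g ≡ 0 [MOD 3 ^ K] := by
  have hc : Nat.Coprime h (3 ^ K) := (cop_pow Nat.prime_three hh).symm
  obtain ⟨u, hu⟩ := Nat.exists_mul_mod_eq_one_of_coprime hc (Nat.one_lt_pow (by omega) (by norm_num))
  have hu1 : h * u ≡ 1 [MOD 3 ^ K] := by
    have h1 : 1 < 3 ^ K := Nat.one_lt_pow (by omega) (by norm_num)
    unfold Nat.ModEq
    rw [Nat.mod_eq_of_lt h1]
    exact hu.2
  have hpos : 0 < 3 ^ K := pow_pos (by norm_num) K
  have hs : h * (u * ((3 ^ K - 1) * g)) + g ≡ 0 [MOD 3 ^ K] := by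
    calc h * (u * ((3 ^ K - 1) * g)) + g = (h * u) * ((3 ^ K - 1) * g) + g := by ring
      _ ≡ 1 * ((3 ^ K - 1) * g) + g [MOD 3 ^ K] :=
        Nat.ModEq.add_right g (Nat.ModEq.mul_right _ hu1)
      _ = (3 ^ K - 1 + 1) * g := by ring
      _ = 3 ^ K * g := by rw [Nat.sub_add_cancel hpos]
      _ ≡ 0 [MOD 3 ^ K] := (Nat.modEq_zero_iff_dvd).mpr (Dvd.intro _ rfl)
  refine ⟨_, ?_, hs⟩
  intro hdiv
  have h3 : 3 ∣ 3 ^ K := dvd_pow_self 3 (by omega)
  have h4 : h * (u * ((3 ^ K - 1) * g)) + g ≡ 0 [MOD 3] := hs.of_dvd h3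
  have h5 : 3 ∣ h * (u * ((3 ^ K - 1) * g)) + g := (Nat.modEq_zero_iff_dvd).mp h4
  exact hg ((Nat.dvd_add_right (Dvd.dvd.mul_left hdiv h)).mp h5)

theorem fibre_plus (D : Finset ℕ) (hD : D ⊆ range 3) (hc : D.card = 2) (k e i m : ℕ)
    (hi : 2 * i + e ≤ k) (hm : 1 ≤ m) (hm2 : m < 2 * i) (ξ ξ' : ℕ) :
    (((PR D k e i).filter (fun t => t.1 % 3 ^ (2 * i) = ξ ∧ t.2 % 3 ^ (2 * i) = ξ' ∧
      t.2 ≡ t.1 [MOD 3 ^ m] ∧ ¬ t.2 ≡ t.1 [MOD 3 ^ (m + 1)])).card : ℝ) ≤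
      4 ^ e * (5 / 3 : ℝ) ^ (k - e - 2 * i + m) := by
  classical
  set K := k - e with hK
  have hKi : 2 * i ≤ K := by omega
  set F := (PR D k e i).filter (fun t => t.1 % 3 ^ (2 * i) = ξ ∧ t.2 % 3 ^ (2 * i) = ξ' ∧
      t.2 ≡ t.1 [MOD 3 ^ m] ∧ ¬ t.2 ≡ t.1 [MOD 3 ^ (m + 1)]) with hF
  rcases F.eq_empty_or_nonempty with hemp | ⟨⟨a, b⟩, hab⟩
  · rw [hemp, card_empty, Nat.cast_zero]
    positivity
  have hab0 := hab
  rw [hF, mem_filter, PR, mem_filter, mem_product] at hab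
  obtain ⟨⟨⟨hga, hgb⟩, h, h', h1, h2, h3, h4, h5⟩, hξ, hξ', hmod, hnmod⟩ := hab
  simp only at hga hgb h5 hξ hξ' hmod hnmod
  have ha3 : ¬ 3 ∣ a := by
    simp only [good, mem_filter] at hga
    exact hga.2.2
  rw [← hK] at h5
  have hd1 : 3 ^ m ∣ 3 ^ K := pow_dvd_pow 3 (by omega)
  have hd2 : 3 ^ (m + 1) ∣ 3 ^ K := pow_dvd_pow 3 (by omega)
  -- `h - h' = 3 ^ m g`
  obtain ⟨w, hw⟩ : ∃ w, h = h' + w := ⟨h - h', by omega⟩
  have hrel : w * a + h * b ≡ h * a [MOD 3 ^ K] := by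
    calc w * a + h * b ≡ w * a + h' * a [MOD 3 ^ K] := Nat.ModEq.add_left _ h5
      _ = (h' + w) * a := by ring
      _ = h * a := by rw [← hw]
  have hwm : 3 ^ m ∣ w := by
    have t1 : w * a + h * b ≡ 0 + h * b [MOD 3 ^ m] := by
      rw [zero_add]
      exact (hrel.of_dvd hd1).trans (Nat.ModEq.mul_left h hmod.symm)
    have t2 : w * a ≡ 0 [MOD 3 ^ m] := Nat.ModEq.add_right_cancel' _ t1
    exact (cop_pow Nat.prime_three ha3).dvd_of_dvd_mul_right ((Nat.modEq_zero_iff_dvd).mp t2)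
  obtain ⟨g, hg⟩ := hwm
  have hg3 : ¬ 3 ∣ g := by
    rintro ⟨g1, hg1⟩
    apply hnmod
    have t1 : w * a ≡ 0 [MOD 3 ^ (m + 1)] := by
      rw [Nat.modEq_zero_iff_dvd]
      refine ⟨g1 * a, ?_⟩
      rw [hg, hg1, pow_succ]
      ring
    have t2 : h * b ≡ h * a [MOD 3 ^ (m + 1)] := by
      calc h * b = 0 + h * b := by ring
        _ ≡ w * a + h * b [MOD 3 ^ (m + 1)] := Nat.ModEq.add_right _ t1.symm
        _ ≡ h * a [MOD 3 ^ (m + 1)] := hrel.of_dvd hd2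
    exact Nat.ModEq.cancel_left_of_coprime (cop_pow Nat.prime_three h4) t2
  obtain ⟨s, hs3, hs⟩ := tb_exists_s (K := K) (by omega) h4 hg3
  -- the linear relation on the whole fibre
  have hlin : ∀ x x' : ℕ, (x, x') ∈ F → x' ≡ x + 3 ^ m * s * x [MOD 3 ^ K] := by
    intro x x' hx
    rw [hF, mem_filter, PR, mem_filter, mem_product] at hx
    obtain ⟨⟨⟨hgx, hgx'⟩, f, f', f1, f2, f3, f4, f5⟩, kξ, kξ', kmod, knmod⟩ := hx
    simp only at hgx hgx' f5 kξ kξ' kmod knmod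
    have hsame : h * x' ≡ h' * x [MOD 3 ^ K] := by
      refine tb_same hi ha3 f4 h2 h3 f2 f3 h5 f5 ?_ ?_
      · unfold Nat.ModEq; rw [kξ, hξ]
      · unfold Nat.ModEq; rw [kξ', hξ']
    have e1 : h * x' + 3 ^ m * x * (h * s + g) ≡ h * (x + 3 ^ m * s * x) [MOD 3 ^ K] := by
      calc h * x' + 3 ^ m * x * (h * s + g)
          ≡ h' * x + 3 ^ m * x * (h * s + g) [MOD 3 ^ K] := Nat.ModEq.add_right _ hsame
        _ = (h' + 3 ^ m * g) * x + 3 ^ m * x * (h * s) := by ring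
        _ = h * x + 3 ^ m * x * (h * s) := by rw [← hg, ← hw]
        _ = h * (x + 3 ^ m * s * x) := by ring
    have e2 : h * x' ≡ h * (x + 3 ^ m * s * x) [MOD 3 ^ K] := by
      calc h * x' = h * x' + 3 ^ m * x * 0 := by ring
        _ ≡ h * x' + 3 ^ m * x * (h * s + g) [MOD 3 ^ K] :=
          Nat.ModEq.add_left _ (Nat.ModEq.mul_left _ hs.symm)
        _ ≡ h * (x + 3 ^ m * s * x) [MOD 3 ^ K] := e1
    exact Nat.ModEq.cancel_left_of_coprime (cop_pow Nat.prime_three h4) e2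
  set Z := (range (3 ^ K)).filter (fun z => z % 3 ^ (2 * i) = ξ ∧ lowOK D 3 K z ∧
      lowOK D 3 K (z + 3 ^ m * s * z)) with hZ
  set G := (range (3 ^ e)).filter (fun y => lowOK D 3 e y) with hG
  have hGc : G.card ≤ 2 ^ e := by
    have := card_lowOK D 3 (by norm_num) e
    rwa [hc] at this
  have hZc : (Z.card : ℝ) ≤ (5 / 3 : ℝ) ^ (K - 2 * i + m) :=
    tree_plus D hD hc K m s hm hs3 (2 * i) hKi ξ
  have hinj : F.card ≤ (Z ×ˢ (G ×ˢ G)).card := by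
    refine card_le_card_of_injOn (fun t => (t.1 % 3 ^ K, (t.1 / 3 ^ K, t.2 / 3 ^ K))) ?_ ?_
    · rintro ⟨x, x'⟩ hx
      rw [mem_coe] at hx
      have hl := hlin x x' hx
      rw [hF, mem_filter, PR, mem_filter, mem_product] at hx
      obtain ⟨⟨⟨hgx, hgx'⟩, -⟩, kξ, kξ', kmod, knmod⟩ := hx
      simp only [good, mem_filter, mem_range] at hgx hgx' kξ kξ'
      have s1 := low_split (a := K) (by omega) hgx.2.1
      have s2 := low_split (a := K) (by omega) hgx'.2.1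
      have hke : k - K = e := by omega
      rw [hke] at s1 s2
      rw [mem_coe]
      simp only [mem_product, hZ, hG, mem_filter, mem_range]
      refine ⟨⟨Nat.mod_lt _ (pow_pos (by norm_num) _), ?_, (lowOK_mod D 3 K x (by norm_num)).mpr s1.1,
        ?_⟩, ⟨?_, s1.2⟩, ⟨?_, s2.2⟩⟩
      · rw [Nat.mod_mod_of_dvd _ (pow_dvd_pow 3 hKi)]
        exact kξ
      · rw [← lowOK_mod D 3 K _ (by norm_num)]
        have hz : x % 3 ^ K + 3 ^ m * s * (x % 3 ^ K) ≡ x' [MOD 3 ^ K] := by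
          refine Nat.ModEq.trans ?_ hl.symm
          exact Nat.ModEq.add (Nat.mod_modEq _ _) (Nat.ModEq.mul_left _ (Nat.mod_modEq _ _))
        rw [show (x % 3 ^ K + 3 ^ m * s * (x % 3 ^ K)) % 3 ^ K = x' % 3 ^ K from hz]
        exact (lowOK_mod D 3 K x' (by norm_num)).mpr s2.1
      · rw [Nat.div_lt_iff_lt_mul (pow_pos (by norm_num) _), ← pow_add,
          show e + K = k by omega]
        exact hgx.1
      · rw [Nat.div_lt_iff_lt_mul (pow_pos (by norm_num) _), ← pow_add,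
          show e + K = k by omega]
        exact hgx'.1
    · rintro ⟨x, x'⟩ hx ⟨y, y'⟩ hy hEq
      rw [mem_coe] at hx hy
      have hlx := hlin x x' hx
      have hly := hlin y y' hy
      simp only [Prod.mk.injEq] at hEq
      obtain ⟨e1, e2, e3⟩ := hEq
      have hxy : x = y := by
        rw [← Nat.div_add_mod x (3 ^ K), ← Nat.div_add_mod y (3 ^ K), e1, e2]
      subst hxy
      have e4 : x' % 3 ^ K = y' % 3 ^ K := hlx.trans hly.symm
      have : x' = y' := by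
        rw [← Nat.div_add_mod x' (3 ^ K), ← Nat.div_add_mod y' (3 ^ K), e3, e4]
      rw [this]
  have hfin : (F.card : ℝ) ≤ (Z.card : ℝ) * ((G.card : ℝ) * (G.card : ℝ)) := by
    have := hinj
    rw [card_product, card_product] at this
    exact_mod_cast this
  have hGr : (G.card : ℝ) ≤ 2 ^ e := by exact_mod_cast hGc
  calc (F.card : ℝ) ≤ (Z.card : ℝ) * ((G.card : ℝ) * (G.card : ℝ)) := hfin
    _ ≤ (5 / 3 : ℝ) ^ (K - 2 * i + m) * ((2 : ℝ) ^ e * 2 ^ e) := by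
        refine mul_le_mul hZc (mul_le_mul hGr hGr (Nat.cast_nonneg _) (by positivity))
          (by positivity) (by positivity)
    _ = 4 ^ e * (5 / 3 : ℝ) ^ (K - 2 * i + m) := by
        rw [← mul_pow, mul_comm]
        norm_num

/-- The same with `h + h' = 3^m g` and `tree_minus`. -/
theorem fibre_minus (D : Finset ℕ) (hD : D ⊆ range 3) (hc : D.card = 2) (k e i m : ℕ)
    (hi : 2 * i + e ≤ k) (hm : 1 ≤ m) (hm2 : m < 2 * i) (ξ ξ' : ℕ) :
    (((PR D k e i).filter (fun t => t.1 % 3 ^ (2 * i) = ξ ∧ t.2 % 3 ^ (2 * i) = ξ' ∧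
      t.2 + t.1 ≡ 0 [MOD 3 ^ m] ∧ ¬ t.2 + t.1 ≡ 0 [MOD 3 ^ (m + 1)])).card : ℝ) ≤
      4 ^ e * (5 / 3 : ℝ) ^ (k - e - 2 * i + m) := by
  classical
  set K := k - e with hK
  have hKi : 2 * i ≤ K := by omega
  set F := (PR D k e i).filter (fun t => t.1 % 3 ^ (2 * i) = ξ ∧ t.2 % 3 ^ (2 * i) = ξ' ∧
      t.2 + t.1 ≡ 0 [MOD 3 ^ m] ∧ ¬ t.2 + t.1 ≡ 0 [MOD 3 ^ (m + 1)]) with hF
  rcases F.eq_empty_or_nonempty with hemp | ⟨⟨a, b⟩, hab⟩
  · rw [hemp, card_empty, Nat.cast_zero]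
    positivity
  have hab0 := hab
  rw [hF, mem_filter, PR, mem_filter, mem_product] at hab
  obtain ⟨⟨⟨hga, hgb⟩, h, h', h1, h2, h3, h4, h5⟩, hξ, hξ', hmod, hnmod⟩ := hab
  simp only at hga hgb h5 hξ hξ' hmod hnmod
  have ha3 : ¬ 3 ∣ a := by
    simp only [good, mem_filter] at hga
    exact hga.2.2
  rw [← hK] at h5
  have hd1 : 3 ^ m ∣ 3 ^ K := pow_dvd_pow 3 (by omega)
  have hd2 : 3 ^ (m + 1) ∣ 3 ^ K := pow_dvd_pow 3 (by omega)
  -- `h + h' = 3 ^ m g`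
  obtain ⟨w, hw⟩ : ∃ w, w = h' + h := ⟨_, rfl⟩
  have hrel : h * (b + a) ≡ w * a [MOD 3 ^ K] := by
    calc h * (b + a) = h * b + h * a := by ring
      _ ≡ h' * a + h * a [MOD 3 ^ K] := Nat.ModEq.add_right _ h5
      _ = w * a := by rw [hw]; ring
  have hwm : 3 ^ m ∣ w := by
    have t2 : w * a ≡ 0 [MOD 3 ^ m] := by
      calc w * a ≡ h * (b + a) [MOD 3 ^ m] := (hrel.of_dvd hd1).symm
        _ ≡ h * 0 [MOD 3 ^ m] := Nat.ModEq.mul_left h hmod
        _ = 0 := by ring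
    exact (cop_pow Nat.prime_three ha3).dvd_of_dvd_mul_right ((Nat.modEq_zero_iff_dvd).mp t2)
  obtain ⟨g, hg⟩ := hwm
  have hg3 : ¬ 3 ∣ g := by
    rintro ⟨g1, hg1⟩
    apply hnmod
    have t1 : w * a ≡ 0 [MOD 3 ^ (m + 1)] := by
      rw [Nat.modEq_zero_iff_dvd]
      refine ⟨g1 * a, ?_⟩
      rw [hg, hg1, pow_succ]
      ring
    have t2 : h * (b + a) ≡ h * 0 [MOD 3 ^ (m + 1)] := by
      rw [mul_zero]
      exact (hrel.of_dvd hd2).trans t1
    exact Nat.ModEq.cancel_left_of_coprime (cop_pow Nat.prime_three h4) t2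
  obtain ⟨s, hs3, hs⟩ := tb_exists_s (K := K) (by omega) h4 hg3
  -- the linear relation on the whole fibre
  have hlin : ∀ x x' : ℕ, (x, x') ∈ F → x' + (x + 3 ^ m * s * x) ≡ 0 [MOD 3 ^ K] := by
    intro x x' hx
    rw [hF, mem_filter, PR, mem_filter, mem_product] at hx
    obtain ⟨⟨⟨hgx, hgx'⟩, f, f', f1, f2, f3, f4, f5⟩, kξ, kξ', kmod, knmod⟩ := hx
    simp only at hgx hgx' f5 kξ kξ' kmod knmod
    have hsame : h * x' ≡ h' * x [MOD 3 ^ K] := by
      refine tb_same hi ha3 f4 h2 h3 f2 f3 h5 f5 ?_ ?_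
      · unfold Nat.ModEq; rw [kξ, hξ]
      · unfold Nat.ModEq; rw [kξ', hξ']
    have e2 : h * (x' + (x + 3 ^ m * s * x)) ≡ h * 0 [MOD 3 ^ K] := by
      calc h * (x' + (x + 3 ^ m * s * x)) = h * x' + (h * x + 3 ^ m * x * (h * s)) := by ring
        _ ≡ h' * x + (h * x + 3 ^ m * x * (h * s)) [MOD 3 ^ K] := Nat.ModEq.add_right _ hsame
        _ = (h' + h) * x + 3 ^ m * x * (h * s) := by ring
        _ = 3 ^ m * x * (h * s + g) := by rw [← hw, hg]; ring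
        _ ≡ 3 ^ m * x * 0 [MOD 3 ^ K] := Nat.ModEq.mul_left _ hs
        _ = h * 0 := by ring
    exact Nat.ModEq.cancel_left_of_coprime (cop_pow Nat.prime_three h4) e2
  set Z := (range (3 ^ K)).filter (fun z => z % 3 ^ (2 * i) = ξ ∧ ¬ 3 ∣ z ∧ lowOK D 3 K z ∧
      lowOK D 3 K (3 ^ K * (z + 3 ^ m * s * z) - (z + 3 ^ m * s * z))) with hZ
  set G := (range (3 ^ e)).filter (fun y => lowOK D 3 e y) with hG
  have hGc : G.card ≤ 2 ^ e := by
    have := card_lowOK D 3 (by norm_num) e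
    rwa [hc] at this
  have hZc : (Z.card : ℝ) ≤ (5 / 3 : ℝ) ^ (K - 2 * i + m) :=
    tree_minus D hD hc K m s hm hs3 (2 * i) hKi ξ
  have hinj : F.card ≤ (Z ×ˢ (G ×ˢ G)).card := by
    refine card_le_card_of_injOn (fun t => (t.1 % 3 ^ K, (t.1 / 3 ^ K, t.2 / 3 ^ K))) ?_ ?_
    · rintro ⟨x, x'⟩ hx
      rw [mem_coe] at hx
      have hl := hlin x x' hx
      rw [hF, mem_filter, PR, mem_filter, mem_product] at hx
      obtain ⟨⟨⟨hgx, hgx'⟩, -⟩, kξ, kξ', kmod, knmod⟩ := hx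
      simp only [good, mem_filter, mem_range] at hgx hgx' kξ kξ'
      have s1 := low_split (a := K) (by omega) hgx.2.1
      have s2 := low_split (a := K) (by omega) hgx'.2.1
      have hke : k - K = e := by omega
      rw [hke] at s1 s2
      rw [mem_coe]
      simp only [mem_product, hZ, hG, mem_filter, mem_range]
      refine ⟨⟨Nat.mod_lt _ (pow_pos (by norm_num) _), ?_, ?_,
        (lowOK_mod D 3 K x (by norm_num)).mpr s1.1, ?_⟩, ⟨?_, s1.2⟩, ⟨?_, s2.2⟩⟩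
      · rw [Nat.mod_mod_of_dvd _ (pow_dvd_pow 3 hKi)]
        exact kξ
      · rw [Nat.dvd_mod_iff (dvd_pow_self 3 (by omega))]
        exact hgx.2.2
      · set z := x % 3 ^ K with hz0
        have hpos : 0 < 3 ^ K := pow_pos (by norm_num) K
        have hz : 3 ^ K * (z + 3 ^ m * s * z) - (z + 3 ^ m * s * z) ≡ x' [MOD 3 ^ K] := by
          have t1 : 3 ^ K * (z + 3 ^ m * s * z) - (z + 3 ^ m * s * z) + (z + 3 ^ m * s * z) =
              3 ^ K * (z + 3 ^ m * s * z) :=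
            Nat.sub_add_cancel (Nat.le_mul_of_pos_left _ hpos)
          have t2 : 3 ^ K * (z + 3 ^ m * s * z) - (z + 3 ^ m * s * z) + (z + 3 ^ m * s * z) ≡
              x' + (z + 3 ^ m * s * z) [MOD 3 ^ K] := by
            rw [t1]
            calc 3 ^ K * (z + 3 ^ m * s * z) ≡ 0 [MOD 3 ^ K] :=
                  (Nat.modEq_zero_iff_dvd).mpr (Dvd.intro _ rfl)
              _ ≡ x' + (x + 3 ^ m * s * x) [MOD 3 ^ K] := hl.symm
              _ ≡ x' + (z + 3 ^ m * s * z) [MOD 3 ^ K] := by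
                  refine Nat.ModEq.add_left _ ?_
                  exact Nat.ModEq.add (Nat.mod_modEq _ _).symm
                    (Nat.ModEq.mul_left _ (Nat.mod_modEq _ _).symm)
          exact Nat.ModEq.add_right_cancel' _ t2
        rw [← lowOK_mod D 3 K _ (by norm_num),
          show (3 ^ K * (z + 3 ^ m * s * z) - (z + 3 ^ m * s * z)) % 3 ^ K = x' % 3 ^ K from hz]
        exact (lowOK_mod D 3 K x' (by norm_num)).mpr s2.1
      · rw [Nat.div_lt_iff_lt_mul (pow_pos (by norm_num) _), ← pow_add,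
          show e + K = k by omega]
        exact hgx.1
      · rw [Nat.div_lt_iff_lt_mul (pow_pos (by norm_num) _), ← pow_add,
          show e + K = k by omega]
        exact hgx'.1
    · rintro ⟨x, x'⟩ hx ⟨y, y'⟩ hy hEq
      rw [mem_coe] at hx hy
      have hlx := hlin x x' hx
      have hly := hlin y y' hy
      simp only [Prod.mk.injEq] at hEq
      obtain ⟨e1, e2, e3⟩ := hEq
      have hxy : x = y := by
        rw [← Nat.div_add_mod x (3 ^ K), ← Nat.div_add_mod y (3 ^ K), e1, e2]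
      subst hxy
      have e4 : x' % 3 ^ K = y' % 3 ^ K := Nat.ModEq.add_right_cancel' _ (hlx.trans hly.symm)
      have : x' = y' := by
        rw [← Nat.div_add_mod x' (3 ^ K), ← Nat.div_add_mod y' (3 ^ K), e3, e4]
      rw [this]
  have hfin : (F.card : ℝ) ≤ (Z.card : ℝ) * ((G.card : ℝ) * (G.card : ℝ)) := by
    have := hinj
    rw [card_product, card_product] at this
    exact_mod_cast this
  have hGr : (G.card : ℝ) ≤ 2 ^ e := by exact_mod_cast hGc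
  calc (F.card : ℝ) ≤ (Z.card : ℝ) * ((G.card : ℝ) * (G.card : ℝ)) := hfin
    _ ≤ (5 / 3 : ℝ) ^ (K - 2 * i + m) * ((2 : ℝ) ^ e * 2 ^ e) := by
        refine mul_le_mul hZc (mul_le_mul hGr hGr (Nat.cast_nonneg _) (by positivity))
          (by positivity) (by positivity)
    _ = 4 ^ e * (5 / 3 : ℝ) ^ (K - 2 * i + m) := by
        rw [← mul_pow, mul_comm]
        norm_num

end Pool.Agent.DP3
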