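import Mathlib
import Pool.Agent.DP3.TB

/-! The number of pairs. -/

set_option autoImplicit false

namespace Pool.Agent.DP3

open Finset Pool.Agent.DigitPowers Pool.Agent.DP2

private def LL26 (D : Finset ℕ) (n : ℕ) : Finset ℕ := (range (3 ^ n)).filter (fun x => lowOK D 3 n x)

private lemma mem_LL26 (D : Finset ℕ) (n x : ℕ) : x ∈ LL26 D n ↔ x < 3 ^ n ∧ lowOK D 3 n x := by
  unfold LL26
  rw [mem_filter, mem_range]

private lemma vcard26 (D : Finset ℕ) (hc : D.card = 2) (n m : ℕ) (hm : m ≤ n)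
    (R : ℕ → ℕ → Prop) [DecidablePred (fun v : ℕ × ℕ => R v.1 v.2)] (hR : ∀ a b b', R a b → R a b' → b ≡ b' [MOD 3 ^ m]) :
    ((LL26 D n ×ˢ LL26 D n).filter (fun v => R v.1 v.2)).card ≤ 2 ^ n * 2 ^ (n - m) := by
  have h1 : ((LL26 D n ×ˢ LL26 D n).filter (fun v => R v.1 v.2)).card ≤
      (LL26 D n ×ˢ LL26 D (n - m)).card := by
    refine card_le_card_of_injOn (fun v => (v.1, v.2 / 3 ^ m)) ?_ ?_
    · rintro ⟨a, b⟩ hv
      rw [mem_coe, mem_filter, mem_product] at hv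
      obtain ⟨⟨ha, hb⟩, -⟩ := hv
      rw [mem_coe, mem_product]
      refine ⟨ha, ?_⟩
      simp only at hb ⊢
      rw [mem_LL26] at hb ⊢
      refine ⟨?_, (low_split hm hb.2).2⟩
      rw [Nat.div_lt_iff_lt_mul (by positivity), ← pow_add]
      have e : n - m + m = n := by omega
      rw [e]
      exact hb.1
    · rintro ⟨a, b⟩ hv ⟨a', b'⟩ hv' heq
      rw [mem_coe, mem_filter] at hv hv'
      have h1 := hv.2
      have h2 := hv'.2
      simp only [Prod.mk.injEq] at heq h1 h2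
      obtain ⟨e1, e2⟩ := heq
      subst e1
      have h3 : b % 3 ^ m = b' % 3 ^ m := hR a b b' h1 h2
      have h4 := Nat.div_add_mod b (3 ^ m)
      have h5 := Nat.div_add_mod b' (3 ^ m)
      rw [e2, h3] at h4
      rw [← h4, h5]
  refine h1.trans ?_
  rw [card_product]
  have h2 := card_lowOK D 3 (by norm_num) n
  have h3 := card_lowOK D 3 (by norm_num) (n - m)
  rw [hc] at h2 h3
  exact Nat.mul_le_mul h2 h3

private lemma good_LL26 (D : Finset ℕ) (k x : ℕ) (hx : x ∈ good D 3 k) :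
    x ∈ LL26 D k ∧ ¬ 3 ∣ x := by
  unfold good at hx
  rw [mem_filter, mem_range] at hx
  exact ⟨(mem_LL26 D k x).2 ⟨hx.1, hx.2.1⟩, hx.2.2⟩

private lemma mod_LL26 (D : Finset ℕ) (k n x : ℕ) (hn : n ≤ k) (hx : x ∈ LL26 D k) :
    x % 3 ^ n ∈ LL26 D n := by
  rw [mem_LL26] at hx ⊢
  exact ⟨Nat.mod_lt _ (by positivity), (lowOK_mod D 3 n x (by norm_num)).2 (low_split hn hx.2).1⟩

/-- a predicate which holds at `1` and fails at `n` changes somewhere -/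
private lemma change26 (P : ℕ → Prop) (n : ℕ) (h1 : P 1) (hn : ¬ P n) (hn1 : 1 ≤ n) :
    ∃ m, 1 ≤ m ∧ m < n ∧ P m ∧ ¬ P (m + 1) := by
  induction n with
  | zero => omega
  | succ n ih =>
    by_cases hP : P n
    · have : n ≠ 0 := by
        rintro rfl
        exact hn h1
      exact ⟨n, by omega, by omega, hP, hn⟩
    · have : 1 ≤ n := by
        by_contra h
        have : n = 0 := by omega
        subst this
        exact hn h1
      obtain ⟨m, a1, a2, a3, a4⟩ := ih hP this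
      exact ⟨m, a1, by omega, a3, a4⟩

open scoped Classical in
/-- the trichotomy -/
private lemma cover26 (D : Finset ℕ) (k e i : ℕ) (hi : 2 * i + e ≤ k) (x x' : ℕ)
    (h : (x, x') ∈ PR D k e i) :
    x' ≡ x [MOD 3 ^ (k - e)] ∨ (∃ m, 1 ≤ m ∧ m < 2 * i ∧ x' ≡ x [MOD 3 ^ m] ∧
      ¬ x' ≡ x [MOD 3 ^ (m + 1)]) ∨
      (∃ m, 1 ≤ m ∧ m < 2 * i ∧ x' + x ≡ 0 [MOD 3 ^ m] ∧ ¬ x' + x ≡ 0 [MOD 3 ^ (m + 1)]) := by
  unfold PR at h
  rw [mem_filter, mem_product] at h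
  obtain ⟨⟨hx, hx'⟩, g, g', a1, a2, a3, a4, a5⟩ := h
  simp only at hx hx' a5
  have h3x := (good_LL26 D k x hx).2
  have h3x' := (good_LL26 D k x' hx').2
  have hi1 : 1 ≤ i := by
    by_contra h0
    have : i = 0 := by omega
    subst this
    simp at a3
    omega
  have hKi : 2 * i ≤ k - e := by omega
  have hdvdK : 3 ^ (2 * i) ∣ 3 ^ (k - e) := pow_dvd_pow 3 hKi
  have hi2 : 3 ^ i + 3 ^ i ≤ 3 ^ (2 * i) := by
    have e1 : 3 ^ (2 * i) = 3 ^ i * 3 ^ i := by rw [← pow_add]; congr 1; omega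
    have e2 : 3 ^ 1 ≤ 3 ^ i := Nat.pow_le_pow_right (by norm_num) hi1
    rw [e1]
    nlinarith
  have hcx : IsCoprime ((3 : ℤ) ^ (2 * i)) (x : ℤ) := by
    apply IsCoprime.pow_left
    have : Nat.Coprime 3 x := (Nat.Prime.coprime_iff_not_dvd Nat.prime_three).mpr h3x
    exact_mod_cast Nat.isCoprime_iff_coprime.2 this
  have hcg : IsCoprime ((3 : ℤ) ^ (k - e)) (g : ℤ) := by
    apply IsCoprime.pow_left
    have : Nat.Coprime 3 g := (Nat.Prime.coprime_iff_not_dvd Nat.prime_three).mpr a4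
    exact_mod_cast Nat.isCoprime_iff_coprime.2 this
  have hcg2 : IsCoprime ((3 : ℤ) ^ (2 * i)) (g : ℤ) := by
    apply IsCoprime.pow_left
    have : Nat.Coprime 3 g := (Nat.Prime.coprime_iff_not_dvd Nat.prime_three).mpr a4
    exact_mod_cast Nat.isCoprime_iff_coprime.2 this
  -- the congruence in the integers
  have hz : ((3 : ℤ) ^ (k - e)) ∣ (g' : ℤ) * x - g * x' := by
    have := (Nat.modEq_iff_dvd.1 a5)
    push_cast at this
    exact this
  have hz2 : ((3 : ℤ) ^ (2 * i)) ∣ (g' : ℤ) * x - g * x' :=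
    (pow_dvd_pow (3 : ℤ) hKi).trans hz
  have a1' : (1 : ℤ) ≤ g' := by exact_mod_cast a1
  have a2' : (g' : ℤ) ≤ g := by exact_mod_cast a2
  have a3' : (g : ℤ) < 3 ^ i := by exact_mod_cast a3
  have hi2' : (3 : ℤ) ^ i + 3 ^ i ≤ 3 ^ (2 * i) := by exact_mod_cast hi2
  have hmod1 : x' ≡ x [MOD 3] ∨ x' + x ≡ 0 [MOD 3] := by
    unfold Nat.ModEq
    omega
  rcases hmod1 with hm1 | hm1
  · by_cases hA : x' ≡ x [MOD 3 ^ (k - e)]
    · exact Or.inl hA
    · refine Or.inr (Or.inl ?_)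
      have hn : ¬ x' ≡ x [MOD 3 ^ (2 * i)] := by
        intro hcon
        apply hA
        have h1 : ((3 : ℤ) ^ (2 * i)) ∣ (x : ℤ) - x' := by
          have := Nat.modEq_iff_dvd.1 hcon
          push_cast at this
          exact this
        have h2 : ((3 : ℤ) ^ (2 * i)) ∣ ((g : ℤ) - g') * x := by
          have e1 : ((g : ℤ) - g') * x = g * (x - x') - (g' * x - g * x') := by ring
          rw [e1]
          exact dvd_sub (h1.mul_left _) hz2
        have h3 : ((3 : ℤ) ^ (2 * i)) ∣ ((g : ℤ) - g') := hcx.dvd_of_dvd_mul_right h2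
        have h4 : (g : ℤ) - g' = 0 := by
          by_contra h5
          have h6 := Int.le_of_dvd (by omega) h3
          omega
        have h5 : ((3 : ℤ) ^ (k - e)) ∣ (g : ℤ) * (x - x') := by
          have e1 : (g : ℤ) * (x - x') = (g' * x - g * x') + (g - g') * x := by ring
          rw [e1, h4, zero_mul, add_zero]
          exact hz
        have h6 : ((3 : ℤ) ^ (k - e)) ∣ ((x : ℤ) - x') := hcg.dvd_of_dvd_mul_left h5
        apply Nat.modEq_iff_dvd.2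
        push_cast
        exact h6
      obtain ⟨m, b1, b2, b3, b4⟩ := change26 (fun m => x' ≡ x [MOD 3 ^ m]) (2 * i)
        (by simpa using hm1) hn (by omega)
      exact ⟨m, b1, b2, b3, b4⟩
  · refine Or.inr (Or.inr ?_)
    have hn : ¬ x' + x ≡ 0 [MOD 3 ^ (2 * i)] := by
      intro hcon
      have h1 : ((3 : ℤ) ^ (2 * i)) ∣ (x' : ℤ) + x := by
        have := (Nat.modEq_zero_iff_dvd.1 hcon)
        have h2 : ((3 ^ (2 * i) : ℕ) : ℤ) ∣ ((x' + x : ℕ) : ℤ) := Int.natCast_dvd_natCast.2 this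
        push_cast at h2
        exact h2
      have h2 : ((3 : ℤ) ^ (2 * i)) ∣ ((g : ℤ) + g') * x := by
        have e1 : ((g : ℤ) + g') * x = g * (x' + x) + (g' * x - g * x') := by ring
        rw [e1]
        exact dvd_add (h1.mul_left _) hz2
      have h3 : ((3 : ℤ) ^ (2 * i)) ∣ ((g : ℤ) + g') := hcx.dvd_of_dvd_mul_right h2
      have h6 := Int.le_of_dvd (by omega) h3
      omega
    obtain ⟨m, b1, b2, b3, b4⟩ := change26 (fun m => x' + x ≡ 0 [MOD 3 ^ m]) (2 * i)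
      (by simpa using hm1) hn (by omega)
    exact ⟨m, b1, b2, b3, b4⟩

open scoped Classical in
/-- fibres over the low digits -/
private lemma fib26 (D : Finset ℕ) (hc : D.card = 2) (k e i m : ℕ)
    (hi : 2 * i + e ≤ k) (hm2 : m < 2 * i) (R : ℕ → ℕ → Prop)
    (hR : ∀ a b b', R a b → R a b' → b ≡ b' [MOD 3 ^ m])
    (hR2 : ∀ a b, R a b → R (a % 3 ^ (2 * i)) (b % 3 ^ (2 * i)))
    (Q : ℕ × ℕ → Prop) [DecidablePred Q] (hQ : ∀ t, Q t → R t.1 t.2) (B : ℝ)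
    (hB : ∀ ξ ξ', (((PR D k e i).filter (fun t => t.1 % 3 ^ (2 * i) = ξ ∧
      t.2 % 3 ^ (2 * i) = ξ' ∧ Q t)).card : ℝ) ≤ B) :
    (((PR D k e i).filter Q).card : ℝ) ≤ 2 ^ (2 * i) * 2 ^ (2 * i - m) * B := by
  have hB0 : 0 ≤ B := le_trans (Nat.cast_nonneg _) (hB 0 0)
  set V := (LL26 D (2 * i) ×ˢ LL26 D (2 * i)).filter (fun v => R v.1 v.2) with hV
  have hmaps : ∀ t ∈ (PR D k e i).filter Q, (t.1 % 3 ^ (2 * i), t.2 % 3 ^ (2 * i)) ∈ V := by
    rintro ⟨x, x'⟩ ht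
    rw [mem_filter] at ht
    obtain ⟨h1, h2⟩ := ht
    unfold PR at h1
    rw [mem_filter, mem_product] at h1
    obtain ⟨⟨hx, hx'⟩, -⟩ := h1
    rw [hV, mem_filter, mem_product]
    exact ⟨⟨mod_LL26 D k _ _ (by omega) (good_LL26 D k _ hx).1,
      mod_LL26 D k _ _ (by omega) (good_LL26 D k _ hx').1⟩, hR2 _ _ (hQ _ h2)⟩
  rw [card_eq_sum_card_fiberwise hmaps]
  push_cast
  have hle : ∀ v ∈ V, ((((PR D k e i).filter Q).filter
      (fun t => (t.1 % 3 ^ (2 * i), t.2 % 3 ^ (2 * i)) = v)).card : ℝ) ≤ B := by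
    rintro ⟨ξ, ξ'⟩ _
    refine le_trans (le_of_eq ?_) (hB ξ ξ')
    congr 2
    ext t
    simp only [mem_filter, Prod.mk.injEq]
    tauto
  refine (sum_le_sum hle).trans ?_
  rw [sum_const, nsmul_eq_mul]
  refine mul_le_mul_of_nonneg_right ?_ hB0
  have := vcard26 D hc (2 * i) m hm2.le R hR
  rw [← hV] at this
  exact_mod_cast this

/-- PROOF. Pairs with `x' ≡ x` modulo `3^(k-e)`: at most `2^k * 2^e`. Any other pair is, as `x x'` is prime to `3` and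
`h ∓ h' < 3^(2i)`, for exactly one `m` with `1 ≤ m < 2i` in the set `x' ≡ x` modulo `3^m`, not modulo `3^(m+1)` (`h x' ≡ h' x`
gives `h (x' - x) ≡ (h' - h) x`), or the same with `-x`. (If `x' ≡ -x` modulo `3^(2i)` then `3^(2i)` divides `h + h'`, which is
`< 3^(2i)`.) For given `m` the pair `(x % 3^(2i), x' % 3^(2i))` takes at most `2^(2i) * 2^(2i-m)` values, and
`fibre_plus`, `fibre_minus` bound the fibres: `∑_m 2 * 2^(4i-m) 4^e (5/3)^(k-e-2i+m) ≤ 10 * 16^i 4^e (5/3)^(k-e-2i)`. -/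
theorem pairs3_le (D : Finset ℕ) (hD : D ⊆ range 3) (hc : D.card = 2) (k e i : ℕ)
    (hi : 2 * i + e ≤ k) :
    ((PR D k e i).card : ℝ) ≤
      2 ^ (k + e) + 10 * 16 ^ i * 4 ^ e * (5 / 3 : ℝ) ^ (k - e - 2 * i) := by
  classical
  -- the three kinds
  set A := (PR D k e i).filter (fun t => t.2 ≡ t.1 [MOD 3 ^ (k - e)]) with hA
  set Bp : ℕ → Finset (ℕ × ℕ) := fun m => (PR D k e i).filter
    (fun t => t.2 ≡ t.1 [MOD 3 ^ m] ∧ ¬ t.2 ≡ t.1 [MOD 3 ^ (m + 1)]) with hBp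
  set Bm : ℕ → Finset (ℕ × ℕ) := fun m => (PR D k e i).filter
    (fun t => t.2 + t.1 ≡ 0 [MOD 3 ^ m] ∧ ¬ t.2 + t.1 ≡ 0 [MOD 3 ^ (m + 1)]) with hBm
  have hcov : PR D k e i ⊆ A ∪ (Ico 1 (2 * i)).biUnion (fun m => Bp m ∪ Bm m) := by
    rintro ⟨x, x'⟩ h
    rw [mem_union, mem_biUnion]
    rcases cover26 D k e i hi x x' h with h1 | ⟨m, h1, h2, h3⟩ | ⟨m, h1, h2, h3⟩
    · exact Or.inl (mem_filter.2 ⟨h, h1⟩)
    · exact Or.inr ⟨m, mem_Ico.2 ⟨h1, h2⟩, mem_union_left _ (mem_filter.2 ⟨h, h3⟩)⟩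
    · exact Or.inr ⟨m, mem_Ico.2 ⟨h1, h2⟩, mem_union_right _ (mem_filter.2 ⟨h, h3⟩)⟩
  have hAc : (A.card : ℝ) ≤ 2 ^ (k + e) := by
    have h2 := vcard26 D hc k (k - e) (by omega) (fun a b => b ≡ a [MOD 3 ^ (k - e)])
      (fun a b b' h h' => h.trans h'.symm)
    have e1 : k - (k - e) = e := by omega
    rw [e1, ← pow_add] at h2
    have h3 : A.card ≤ 2 ^ (k + e) := by
      refine le_trans (card_le_card ?_) h2
      rintro ⟨x, x'⟩ h
      rw [hA, mem_filter] at h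
      obtain ⟨h1, h2⟩ := h
      unfold PR at h1
      rw [mem_filter, mem_product] at h1
      rw [mem_filter, mem_product]
      exact ⟨⟨(good_LL26 D k _ h1.1.1).1, (good_LL26 D k _ h1.1.2).1⟩, h2⟩
    exact_mod_cast h3
  have hbound : ∀ m ∈ Ico 1 (2 * i), ((Bp m ∪ Bm m).card : ℝ) ≤
      2 * (16 ^ i * 4 ^ e * (5 / 3 : ℝ) ^ (k - e - 2 * i) * (5 / 6 : ℝ) ^ m) := by
    intro m hm
    rw [mem_Ico] at hm
    have hdv : (3 : ℕ) ^ m ∣ 3 ^ (2 * i) := pow_dvd_pow 3 hm.2.le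
    have hmm : ∀ a : ℕ, a % 3 ^ (2 * i) ≡ a [MOD 3 ^ m] := fun a =>
      (Nat.mod_modEq a (3 ^ (2 * i))).of_dvd hdv
    have h1 : ((Bp m).card : ℝ) ≤ 2 ^ (2 * i) * 2 ^ (2 * i - m) *
        (4 ^ e * (5 / 3 : ℝ) ^ (k - e - 2 * i + m)) := by
      refine fib26 D hc k e i m hi hm.2 (fun a b => b ≡ a [MOD 3 ^ m])
        (fun a b b' h h' => h.trans h'.symm)
        (fun a b h => (hmm b).trans (h.trans (hmm a).symm))
        (fun t => t.2 ≡ t.1 [MOD 3 ^ m] ∧ ¬ t.2 ≡ t.1 [MOD 3 ^ (m + 1)]) (fun t h => h.1) _ ?_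
      intro ξ ξ'
      exact fibre_plus D hD hc k e i m hi hm.1 hm.2 ξ ξ'
    have h2 : ((Bm m).card : ℝ) ≤ 2 ^ (2 * i) * 2 ^ (2 * i - m) *
        (4 ^ e * (5 / 3 : ℝ) ^ (k - e - 2 * i + m)) := by
      refine fib26 D hc k e i m hi hm.2 (fun a b => b + a ≡ 0 [MOD 3 ^ m])
        (fun a b b' h h' => Nat.ModEq.add_right_cancel' a (h.trans h'.symm))
        (fun a b h => ((hmm b).add (hmm a)).trans h)
        (fun t => t.2 + t.1 ≡ 0 [MOD 3 ^ m] ∧ ¬ t.2 + t.1 ≡ 0 [MOD 3 ^ (m + 1)])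
        (fun t h => h.1) _ ?_
      intro ξ ξ'
      exact fibre_minus D hD hc k e i m hi hm.1 hm.2 ξ ξ'
    have h3 : ((Bp m ∪ Bm m).card : ℝ) ≤ (Bp m).card + (Bm m).card := by
      exact_mod_cast card_union_le _ _
    have h4 : (2 : ℝ) ^ (2 * i) * 2 ^ (2 * i - m) *
        (4 ^ e * (5 / 3 : ℝ) ^ (k - e - 2 * i + m)) =
        16 ^ i * 4 ^ e * (5 / 3 : ℝ) ^ (k - e - 2 * i) * (5 / 6 : ℝ) ^ m := by
      have e1 : (2 : ℝ) ^ (2 * i - m) = 2 ^ (2 * i) / 2 ^ m := by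
        rw [eq_div_iff (by positivity), ← pow_add]
        congr 1
        omega
      have e2 : (16 : ℝ) ^ i = 2 ^ (2 * i) * 2 ^ (2 * i) := by
        rw [← pow_add, show (16 : ℝ) = 2 ^ 4 by norm_num, ← pow_mul]
        congr 1
        omega
      have e3 : (5 / 6 : ℝ) ^ m = (5 / 3) ^ m / 2 ^ m := by
        rw [← div_pow]
        norm_num
      rw [e1, e2, e3, pow_add]
      ring
    linarith
  have hsum : ∑ m ∈ Ico 1 (2 * i), (5 / 6 : ℝ) ^ m ≤ 5 := by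
    have h1 : ∀ n : ℕ, ∑ m ∈ Ico 1 (n + 1), (5 / 6 : ℝ) ^ m = 5 - 5 * (5 / 6 : ℝ) ^ n := by
      intro n
      induction n with
      | zero => simp
      | succ n ih =>
        rw [sum_Ico_succ_top (by omega), ih, pow_succ]
        ring
    rcases Nat.eq_zero_or_pos (2 * i) with h0 | h0
    · rw [h0]
      simp
    · obtain ⟨n, hn⟩ : ∃ n, 2 * i = n + 1 := ⟨2 * i - 1, by omega⟩
      rw [hn, h1]
      have : (0 : ℝ) ≤ (5 / 6 : ℝ) ^ n := by positivity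
      linarith
  have hcard : ((PR D k e i).card : ℝ) ≤ A.card + ∑ m ∈ Ico 1 (2 * i), ((Bp m ∪ Bm m).card : ℝ) := by
    have h1 := card_le_card hcov
    have h2 := card_union_le A ((Ico 1 (2 * i)).biUnion (fun m => Bp m ∪ Bm m))
    have h3 := card_biUnion_le (s := Ico 1 (2 * i)) (t := fun m => Bp m ∪ Bm m)
    have h4 := h1.trans (h2.trans (Nat.add_le_add_left h3 _))
    exact_mod_cast h4
  have hsum2 : ∑ m ∈ Ico 1 (2 * i), ((Bp m ∪ Bm m).card : ℝ) ≤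
      10 * 16 ^ i * 4 ^ e * (5 / 3 : ℝ) ^ (k - e - 2 * i) := by
    refine (sum_le_sum hbound).trans ?_
    rw [← mul_sum, ← mul_sum]
    have h1 : (0 : ℝ) ≤ 16 ^ i * 4 ^ e * (5 / 3 : ℝ) ^ (k - e - 2 * i) := by positivity
    nlinarith
  linarith

end Pool.Agent.DP3
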