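import Mathlib
import Pool.Agent.DP3.TB2

/-! The energy for two ternary digits. -/

set_option autoImplicit false

namespace Pool.Agent.DP3

open Finset Pool.Agent.DigitPowers Pool.Agent.DP2

private lemma tc_geo1 (k I : ℕ) : ∑ e ∈ range I, (2 : ℝ) ^ (k + e) ≤ 2 ^ (k + I) := by
  induction I with
  | zero => simp
  | succ I ih =>
    rw [sum_range_succ]
    have : (2 : ℝ) ^ (k + (I + 1)) = 2 ^ (k + I) + 2 ^ (k + I) := by ring
    rw [this]; linarith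

private lemma tc_geo2 (I : ℕ) : ∑ e ∈ range I, (5 / 12 : ℝ) ^ e ≤ 2 := by
  have h : ∑ e ∈ range I, (5 / 12 : ℝ) ^ e + 12 / 7 * (5 / 12) ^ I = 12 / 7 := by
    induction I with
    | zero => simp
    | succ I ih =>
      rw [sum_range_succ, pow_succ]
      linarith
  have h2 : (0 : ℝ) ≤ 12 / 7 * (5 / 12) ^ I := by positivity
  linarith

private lemma tc_geo3 (k j : ℕ) :
    ∑ I ∈ Ico 1 (j + 1), (3 : ℝ) ^ (j + 1 - I) * 2 ^ (k + I) ≤ 6 * 3 ^ j * 2 ^ k := by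
  have h : ∑ I ∈ Ico 1 (j + 1), (3 : ℝ) ^ (j + 1 - I) * 2 ^ (k + I) + 6 * 2 ^ (k + j) =
      6 * 3 ^ j * 2 ^ k := by
    induction j with
    | zero => simp
    | succ j ih =>
      rw [sum_Ico_succ_top (by omega)]
      have e1 : ∑ I ∈ Ico 1 (j + 1), (3 : ℝ) ^ (j + 1 + 1 - I) * 2 ^ (k + I) =
          3 * ∑ I ∈ Ico 1 (j + 1), (3 : ℝ) ^ (j + 1 - I) * 2 ^ (k + I) := by
        rw [mul_sum]
        refine sum_congr rfl fun I hI => ?_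
        rw [mem_Ico] at hI
        rw [show j + 1 + 1 - I = (j + 1 - I) + 1 by omega, pow_succ]
        ring
      rw [e1, show j + 1 + 1 - (j + 1) = 1 by omega, pow_one]
      have e2 : (2 : ℝ) ^ (k + (j + 1)) = 2 * 2 ^ (k + j) := by ring
      have e3 : (3 : ℝ) ^ (j + 1) = 3 * 3 ^ j := by ring
      rw [e2, e3]
      linarith
  have h2 : (0 : ℝ) ≤ 6 * 2 ^ (k + j) := by positivity
  linarith

private lemma tc_geo4 (j : ℕ) :
    ∑ I ∈ Ico 1 (j + 1), (3 : ℝ) ^ (j + 1 - I) * (144 / 25) ^ I ≤ 7 * (144 / 25) ^ j := by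
  induction j with
  | zero => simp
  | succ j ih =>
    rw [sum_Ico_succ_top (by omega)]
    have e1 : ∑ I ∈ Ico 1 (j + 1), (3 : ℝ) ^ (j + 1 + 1 - I) * (144 / 25) ^ I =
        3 * ∑ I ∈ Ico 1 (j + 1), (3 : ℝ) ^ (j + 1 - I) * (144 / 25) ^ I := by
      rw [mul_sum]
      refine sum_congr rfl fun I hI => ?_
      rw [mem_Ico] at hI
      rw [show j + 1 + 1 - I = (j + 1 - I) + 1 by omega, pow_succ]
      ring
    rw [e1, show j + 1 + 1 - (j + 1) = 1 by omega, pow_one]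
    have e2 : (144 / 25 : ℝ) ^ (j + 1) = 144 / 25 * (144 / 25) ^ j := by ring
    have e3 : (0 : ℝ) < (144 / 25) ^ j := by positivity
    rw [e2]
    linarith

open scoped Classical in
private lemma exists_pairs3_le (D : Finset ℕ) (hD : D ⊆ range 3) (hc : D.card = 2) (k I : ℕ)
    (hIk : 2 * I ≤ k) :
    (((good D 3 k ×ˢ good D 3 k).filter (fun t => ∃ h h', 1 ≤ h' ∧ h' ≤ h ∧ h < 3 ^ I ∧
      h * t.2 ≡ h' * t.1 [MOD 3 ^ k])).card : ℝ) ≤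
      2 ^ (k + I) + 20 * ((144 / 25) ^ I * (5 / 3) ^ k) := by
  have hsub : (good D 3 k ×ˢ good D 3 k).filter (fun t => ∃ h h', 1 ≤ h' ∧ h' ≤ h ∧ h < 3 ^ I ∧
      h * t.2 ≡ h' * t.1 [MOD 3 ^ k]) ⊆ (range I).biUnion (fun e => PR D k e (I - e)) := by
    rintro ⟨x, x'⟩ ht
    rw [mem_filter, mem_product] at ht
    obtain ⟨⟨hx, hx'⟩, hex⟩ := ht
    have hxq : ¬ 3 ∣ x := by
      simp only [good, mem_filter] at hx
      exact hx.2.2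
    obtain ⟨e, he, hP⟩ := exists_val 3 Nat.prime_three k I x x' (by omega) hxq hex
    rw [mem_biUnion]
    refine ⟨e, he, ?_⟩
    unfold PR
    exact mem_filter.mpr ⟨mem_product.mpr ⟨hx, hx'⟩, hP⟩
  have h1 : (((good D 3 k ×ˢ good D 3 k).filter (fun t => ∃ h h', 1 ≤ h' ∧ h' ≤ h ∧ h < 3 ^ I ∧
      h * t.2 ≡ h' * t.1 [MOD 3 ^ k])).card : ℝ) ≤
      ∑ e ∈ range I, ((PR D k e (I - e)).card : ℝ) := by
    exact_mod_cast (card_le_card hsub).trans card_biUnion_le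
  refine h1.trans ?_
  have h2 : ∀ e ∈ range I, ((PR D k e (I - e)).card : ℝ) ≤
      2 ^ (k + e) + 10 * ((144 / 25) ^ I * (5 / 3) ^ k) * (5 / 12) ^ e := by
    intro e he
    rw [mem_range] at he
    refine (pairs3_le D hD hc k e (I - e) (by omega)).trans (le_of_eq ?_)
    congr 1
    obtain ⟨f, hf⟩ : ∃ f, I = e + f := ⟨I - e, by omega⟩
    obtain ⟨g, hg⟩ : ∃ g, k = 2 * I + g := ⟨k - 2 * I, by omega⟩
    have e1 : I - e = f := by omega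
    have e2 : k - e - 2 * (I - e) = g + e := by omega
    rw [e2, e1, hg, hf]
    have e3 : (16 : ℝ) ^ f * 4 ^ e * (5 / 3) ^ (g + e) =
        (144 / 25) ^ (e + f) * (5 / 3) ^ (2 * (e + f) + g) * (5 / 12) ^ e := by
      have e4 : (144 / 25 : ℝ) ^ (e + f) * (5 / 3) ^ (2 * (e + f) + g) * (5 / 12) ^ e =
          ((144 / 25 * (5 / 3) ^ 2) ^ f) * ((144 / 25 * (5 / 3) ^ 2 * (5 / 12)) ^ e) *
            (5 / 3) ^ g := by
        rw [mul_pow, mul_pow, mul_pow, ← pow_mul, ← pow_mul]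
        ring
      have e5 : (144 / 25 * (5 / 3) ^ 2 : ℝ) = 16 := by norm_num
      have e6 : (16 * (5 / 12) : ℝ) = 4 * (5 / 3) := by norm_num
      rw [e4, e5, e6, mul_pow]
      ring
    linear_combination 10 * e3
  calc ∑ e ∈ range I, ((PR D k e (I - e)).card : ℝ)
      ≤ ∑ e ∈ range I, ((2 : ℝ) ^ (k + e) + 10 * ((144 / 25) ^ I * (5 / 3) ^ k) * (5 / 12) ^ e) :=
        sum_le_sum h2
    _ = ∑ e ∈ range I, (2 : ℝ) ^ (k + e) +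
        10 * ((144 / 25) ^ I * (5 / 3) ^ k) * ∑ e ∈ range I, (5 / 12) ^ e := by
        rw [sum_add_distrib, mul_sum]
    _ ≤ 2 ^ (k + I) + 10 * ((144 / 25) ^ I * (5 / 3) ^ k) * 2 := by
        have h3 : (0 : ℝ) ≤ 10 * ((144 / 25) ^ I * (5 / 3) ^ k) := by positivity
        exact add_le_add (tc_geo1 k I) (mul_le_mul_of_nonneg_left (tc_geo2 I) h3)
    _ = _ := by ring

private theorem energy3_half (D : Finset ℕ) (hD : D ⊆ range 3) (hc : D.card = 2)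
    (k j : ℕ) (hj : 2 * j ≤ k) :
    (((((Ico 1 (3 ^ j)) ×ˢ (Ico 1 (3 ^ j))) ×ˢ (good D 3 k ×ˢ good D 3 k)).filter
      (fun t => t.1.2 ≤ t.1.1 ∧ t.1.1 * t.2.2 ≡ t.1.2 * t.2.1 [MOD 3 ^ k])).card : ℝ) ≤
      6 * 3 ^ j * 2 ^ k + 140 * (144 / 25) ^ j * (5 / 3) ^ k := by
  classical
  have hfib : ((((Ico 1 (3 ^ j)) ×ˢ (Ico 1 (3 ^ j))) ×ˢ (good D 3 k ×ˢ good D 3 k)).filter
      (fun t => t.1.2 ≤ t.1.1 ∧ t.1.1 * t.2.2 ≡ t.1.2 * t.2.1 [MOD 3 ^ k])).card =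
      ∑ b ∈ good D 3 k ×ˢ good D 3 k, (((Ico 1 (3 ^ j)) ×ˢ (Ico 1 (3 ^ j))).filter
        (fun t => t.2 ≤ t.1 ∧ t.1 * b.2 ≡ t.2 * b.1 [MOD 3 ^ k])).card := by
    rw [card_filter, sum_product_right]
    refine sum_congr rfl fun b _ => ?_
    rw [card_filter]
  have hnat : ((((Ico 1 (3 ^ j)) ×ˢ (Ico 1 (3 ^ j))) ×ˢ (good D 3 k ×ˢ good D 3 k)).filter
      (fun t => t.1.2 ≤ t.1.1 ∧ t.1.1 * t.2.2 ≡ t.1.2 * t.2.1 [MOD 3 ^ k])).card ≤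
      ∑ I ∈ Ico 1 (j + 1), 3 ^ (j + 1 - I) * ((good D 3 k ×ˢ good D 3 k).filter
        (fun t => ∃ h h', 1 ≤ h' ∧ h' ≤ h ∧ h < 3 ^ I ∧
          h * t.2 ≡ h' * t.1 [MOD 3 ^ k])).card := by
    rw [hfib]
    calc _ ≤ ∑ b ∈ good D 3 k ×ˢ good D 3 k, ∑ I ∈ Ico 1 (j + 1),
          (if ∃ h h', 1 ≤ h' ∧ h' ≤ h ∧ h < 3 ^ I ∧
          h * b.2 ≡ h' * b.1 [MOD 3 ^ k] then 3 ^ (j + 1 - I) else 0) := by
          refine sum_le_sum fun b hb => ?_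
          have hxq : ¬ 3 ∣ b.1 := by
            rw [mem_product] at hb
            have := hb.1
            simp only [good, mem_filter] at this
            exact this.2.2
          exact sols_card_le 3 Nat.prime_three k j b.1 b.2 hj hxq
      _ = ∑ I ∈ Ico 1 (j + 1), ∑ b ∈ good D 3 k ×ˢ good D 3 k,
          (if ∃ h h', 1 ≤ h' ∧ h' ≤ h ∧ h < 3 ^ I ∧
          h * b.2 ≡ h' * b.1 [MOD 3 ^ k] then 3 ^ (j + 1 - I) else 0) := sum_comm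
      _ = _ := by
          refine sum_congr rfl fun I _ => ?_
          rw [← sum_filter, sum_const, smul_eq_mul, mul_comm]
  have hreal : (((((Ico 1 (3 ^ j)) ×ˢ (Ico 1 (3 ^ j))) ×ˢ (good D 3 k ×ˢ good D 3 k)).filter
      (fun t => t.1.2 ≤ t.1.1 ∧ t.1.1 * t.2.2 ≡ t.1.2 * t.2.1 [MOD 3 ^ k])).card : ℝ) ≤
      ∑ I ∈ Ico 1 (j + 1), (3 : ℝ) ^ (j + 1 - I) * (((good D 3 k ×ˢ good D 3 k).filter
        (fun t => ∃ h h', 1 ≤ h' ∧ h' ≤ h ∧ h < 3 ^ I ∧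
          h * t.2 ≡ h' * t.1 [MOD 3 ^ k])).card : ℝ) := by
    have := (Nat.cast_le (α := ℝ)).2 hnat
    push_cast at this
    exact this
  refine hreal.trans ?_
  calc ∑ I ∈ Ico 1 (j + 1), (3 : ℝ) ^ (j + 1 - I) * (((good D 3 k ×ˢ good D 3 k).filter
        (fun t => ∃ h h', 1 ≤ h' ∧ h' ≤ h ∧ h < 3 ^ I ∧
          h * t.2 ≡ h' * t.1 [MOD 3 ^ k])).card : ℝ)
      ≤ ∑ I ∈ Ico 1 (j + 1), ((3 : ℝ) ^ (j + 1 - I) * 2 ^ (k + I) +
        20 * (5 / 3) ^ k * ((3 : ℝ) ^ (j + 1 - I) * (144 / 25) ^ I)) := by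
        refine sum_le_sum fun I hI => ?_
        rw [mem_Ico] at hI
        have h1 := exists_pairs3_le D hD hc k I (by omega)
        have h2 : (0 : ℝ) ≤ 3 ^ (j + 1 - I) := by positivity
        refine (mul_le_mul_of_nonneg_left h1 h2).trans (le_of_eq ?_)
        ring
    _ = ∑ I ∈ Ico 1 (j + 1), (3 : ℝ) ^ (j + 1 - I) * 2 ^ (k + I) +
        20 * (5 / 3) ^ k * ∑ I ∈ Ico 1 (j + 1), (3 : ℝ) ^ (j + 1 - I) * (144 / 25) ^ I := by
        rw [sum_add_distrib, mul_sum]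
    _ ≤ 6 * 3 ^ j * 2 ^ k + 20 * (5 / 3) ^ k * (7 * (144 / 25) ^ j) := by
        have h3 : (0 : ℝ) ≤ 20 * (5 / 3) ^ k := by positivity
        exact add_le_add (tc_geo3 k j) (mul_le_mul_of_nonneg_left (tc_geo4 j) h3)
    _ = _ := by ring

/-- PROOF. As `DP2.energy_half`, `DP2.energy_le` with `pairs3_le` instead of `DP2.pairs_card_le` (`DP2.sols_card_le`,
`DP2.exists_val` are used as they are): `∑_{e<I} (2^(k+e) + 10 * 16^(I-e) 4^e (5/3)^(k-e-2(I-e))) ≤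
2^(k+I) + 20 (144/25)^I (5/3)^k`, then `∑_{I=1}^j 3^(j+1-I) (..) ≤ 6 * 3^j 2^k + 140 (144/25)^j (5/3)^k`, twice. -/
theorem energy3_le (D : Finset ℕ) (hD : D ⊆ range 3) (hc : D.card = 2) (k j : ℕ)
    (hj : 2 * j ≤ k) :
    ((((Ico 1 (3 ^ j)) ×ˢ (Ico 1 (3 ^ j))) ×ˢ (good D 3 k ×ˢ good D 3 k)).filter
      (fun t => t.1.1 * t.2.2 ≡ t.1.2 * t.2.1 [MOD 3 ^ k])).card ≤
      12 * 3 ^ j * 2 ^ k + 280 * (144 / 25 : ℝ) ^ j * (5 / 3 : ℝ) ^ k := by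
  classical
  set A := ((((Ico 1 (3 ^ j)) ×ˢ (Ico 1 (3 ^ j))) ×ˢ (good D 3 k ×ˢ good D 3 k)).filter
      (fun t => t.1.2 ≤ t.1.1 ∧ t.1.1 * t.2.2 ≡ t.1.2 * t.2.1 [MOD 3 ^ k])) with hA
  have hAc : (A.card : ℝ) ≤ 6 * 3 ^ j * 2 ^ k + 140 * (144 / 25) ^ j * (5 / 3) ^ k :=
    energy3_half D hD hc k j hj
  have hsub : (((Ico 1 (3 ^ j)) ×ˢ (Ico 1 (3 ^ j))) ×ˢ (good D 3 k ×ˢ good D 3 k)).filter
      (fun t => t.1.1 * t.2.2 ≡ t.1.2 * t.2.1 [MOD 3 ^ k]) ⊆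
      A ∪ A.image (fun t => ((t.1.2, t.1.1), (t.2.2, t.2.1))) := by
    rintro ⟨⟨h, h'⟩, ⟨x, x'⟩⟩ ht
    rw [mem_filter, mem_product, mem_product, mem_product] at ht
    obtain ⟨⟨⟨a1, a2⟩, a3, a4⟩, a5⟩ := ht
    simp only at a1 a2 a3 a4 a5
    rw [mem_union]
    rcases le_total h' h with hle | hle
    · left
      rw [hA, mem_filter]
      exact ⟨mem_product.mpr ⟨mem_product.mpr ⟨a1, a2⟩, mem_product.mpr ⟨a3, a4⟩⟩, hle, a5⟩
    · right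
      rw [mem_image]
      refine ⟨((h', h), (x', x)), ?_, rfl⟩
      rw [hA, mem_filter]
      exact ⟨mem_product.mpr ⟨mem_product.mpr ⟨a2, a1⟩, mem_product.mpr ⟨a4, a3⟩⟩, hle, a5.symm⟩
  have hcard : ((((Ico 1 (3 ^ j)) ×ˢ (Ico 1 (3 ^ j))) ×ˢ (good D 3 k ×ˢ good D 3 k)).filter
      (fun t => t.1.1 * t.2.2 ≡ t.1.2 * t.2.1 [MOD 3 ^ k])).card ≤ A.card + A.card := by
    calc _ ≤ _ := card_le_card hsub
      _ ≤ A.card + (A.image (fun t => ((t.1.2, t.1.1), (t.2.2, t.2.1)))).card := card_union_le _ _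
      _ ≤ A.card + A.card := Nat.add_le_add_left card_image_le _
  have hcard' := (Nat.cast_le (α := ℝ)).2 hcard
  push_cast at hcard'
  linarith

/-- PROOF. `(48/25)^3 ≤ (6/5)^11`, so `(48/25)^j ≤ (6/5)^k` and the second term is at most `280 * 3^j * 2^k`. -/
theorem energy3 (D : Finset ℕ) (hD : D ⊆ range 3) (hc : D.card = 2) (k j : ℕ)
    (hj : 11 * j ≤ 3 * k) :
    ((((Ico 1 (3 ^ j)) ×ˢ (Ico 1 (3 ^ j))) ×ˢ (good D 3 k ×ˢ good D 3 k)).filter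
      (fun t => t.1.1 * t.2.2 ≡ t.1.2 * t.2.1 [MOD 3 ^ k])).card ≤ 292 * 3 ^ j * 2 ^ k := by
  have h1 := energy3_le D hD hc k j (by omega)
  have h2 : (48 / 25 : ℝ) ^ j ≤ (6 / 5) ^ k := by
    rw [← pow_le_pow_iff_left₀ (by positivity) (by positivity) (show 11 ≠ 0 by norm_num),
      ← pow_mul, ← pow_mul]
    calc (48 / 25 : ℝ) ^ (j * 11) ≤ (48 / 25) ^ (3 * k) :=
          pow_le_pow_right₀ (by norm_num) (by omega)
      _ = ((48 / 25) ^ 3) ^ k := by rw [pow_mul]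
      _ ≤ ((6 / 5) ^ 11) ^ k := pow_le_pow_left₀ (by positivity) (by norm_num) k
      _ = (6 / 5) ^ (k * 11) := by rw [← pow_mul, mul_comm]
  have h3 : (144 / 25 : ℝ) ^ j * (5 / 3) ^ k ≤ 3 ^ j * 2 ^ k := by
    have e1 : (144 / 25 : ℝ) ^ j = 3 ^ j * (48 / 25) ^ j := by
      rw [← mul_pow]; norm_num
    have e2 : (2 : ℝ) ^ k = (5 / 3) ^ k * (6 / 5) ^ k := by
      rw [← mul_pow]; norm_num
    rw [e1, e2]
    have h4 : (0 : ℝ) ≤ 3 ^ j * (5 / 3) ^ k := by positivity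
    have h5 := mul_le_mul_of_nonneg_left h2 h4
    linarith
  have h4 : (((((Ico 1 (3 ^ j)) ×ˢ (Ico 1 (3 ^ j))) ×ˢ (good D 3 k ×ˢ good D 3 k)).filter
      (fun t => t.1.1 * t.2.2 ≡ t.1.2 * t.2.1 [MOD 3 ^ k])).card : ℝ) ≤
      ((292 * 3 ^ j * 2 ^ k : ℕ) : ℝ) := by
    push_cast
    linarith
  exact_mod_cast h4

end Pool.Agent.DP3
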